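import Mathlib

/-!
# The volume difference inequality for sections has no absolute constant (MP_ad3614_gt)

For origin-symmetric convex bodies `L ⊆ K ⊆ ℝⁿ` consider
`|K|^{(n-k)/n} - |L|^{(n-k)/n} ≤ γ^k max_F (|K ∩ F| - |L ∩ F|)`   (∗).
We show that the best constants `γ_{n,k}` are unbounded, already for hyperplane sections (`k = 1`).

Idea.  Take `N = n²` random unit vectors `θ_i`, so that no slab `{|⟪x,ν⟫| ≤ δ/√n}` contains more
than a small fraction of them, and `K₀ = (conv {± R θ_i} + B) ∩ R B`, whose volume radius is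
`O(n^{-1/2})` (Maurey's lemma) but whose norm equals `|x|/R` on the cones around the `θ_i`.
Put `h_i(x) = |⟪x,θ_i⟫| (⟪x,θ_i⟫²/|x|²)^b`, `b = 8 n R²`; `h_i + 2b|x|` is subadditive.  The norms
`‖x‖_K = ‖x‖_{K₀} + 2 b t N |x|` and `‖x‖_L = ‖x‖_K + t ∑ h_i(x)` define `L ⊆ K`.  From
`|K| = (1/n!) ∫ exp(-‖x‖_K) dx` (same for sections) and the identity
`∫_F exp(-|x|) h_i = |P_F θ_i|^{2b+1} A_{n-1}` one gets
`|K ∩ F| - |L ∩ F| ≤ t R^n A_{n-1} (∑ (1-⟪θ_i,ν⟫²)^b)/(n-1)!`, small by the choice of the `θ_i`,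
and `|K| - |L| ≥ c t N R^{n+1} A_n / n!`, which contradicts (∗) for every fixed `γ`, as `n → ∞`.
-/

set_option autoImplicit false
open MeasureTheory Set

namespace Pool.Agent.Results.MP_ad3614_gt.DifferenceUnbounded

noncomputable section

/-! ## Definitions of the statement -/

section generic

variable {E : Type*} [NormedAddCommGroup E] [InnerProductSpace ℝ E] [FiniteDimensional ℝ E]
  [MeasurableSpace E] [BorelSpace E]

/-- Origin-symmetric convex bodies. -/
def IsSymmBody (K : Set E) : Prop :=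
  IsCompact K ∧ Convex ℝ K ∧ (interior K).Nonempty ∧ ∀ x ∈ K, -x ∈ K

/-- The volume `|K|` (Lebesgue measure of the Euclidean space `E`). -/
def vol (K : Set E) : ℝ := (volume K).toReal

/-- The section `K ∩ F`, as a subset of the Euclidean space `F`. -/
def slice (K : Set E) (F : Submodule ℝ E) : Set F := {x : F | (x : E) ∈ K}

/-- The `(dim F)`-dimensional volume `|K ∩ F|` for a linear subspace `F`. -/
def sec (K : Set E) (F : Submodule ℝ E) : ℝ := vol (slice K F)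

/-- The values `|K ∩ F| - |L ∩ F|`, over all `d`-dimensional linear subspaces `F`. -/
def secDiffs (d : ℕ) (K L : Set E) : Set ℝ :=
  {s | ∃ F : Submodule ℝ E, Module.finrank ℝ F = d ∧ s = sec K F - sec L F}

end generic

/-- The inequality `(∗)` with constant `γ`: it holds for all pairs `L ⊆ K` of origin-symmetric
convex bodies in `ℝⁿ` (the supremum is over all `(n-k)`-dimensional linear subspaces `F`). -/
def Holds (n k : ℕ) (γ : ℝ) : Prop :=
  ∀ K L : Set (EuclideanSpace ℝ (Fin n)), IsSymmBody K → IsSymmBody L → L ⊆ K →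
    vol K ^ (((n : ℝ) - k) / n) - vol L ^ (((n : ℝ) - k) / n) ≤
      γ ^ k * sSup (secDiffs (n - k) K L)

/-- `γ_{n,k}`: the infimum, in `[0,∞]`, of all `γ > 0` for which `(∗)` holds. -/
def gammaConst (n k : ℕ) : ENNReal :=
  ⨅ γ ∈ {γ : ℝ | 0 < γ ∧ Holds n k γ}, ENNReal.ofReal γ

/-- `(∗)` with `k = 1` and `γ = C` fails with room to spare: for some origin-symmetric convex
bodies `L ⊆ K` in `ℝⁿ`, all central hyperplane sections satisfy `|K ∩ F| - |L ∩ F| ≤ B`, where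
`C B < |K|^{(n-1)/n} - |L|^{(n-1)/n}`. -/
def StronglyFails (n : ℕ) (C : ℝ) : Prop :=
  ∃ K L : Set (EuclideanSpace ℝ (Fin n)), IsSymmBody K ∧ IsSymmBody L ∧ L ⊆ K ∧ ∃ B : ℝ,
    (∀ s ∈ secDiffs (n - 1) K L, s ≤ B) ∧
    C * B < vol K ^ (((n : ℝ) - 1) / n) - vol L ^ (((n : ℝ) - 1) / n)

/-- The supremum in `(∗)` is that of a nonempty bounded set of numbers. -/
def SecBounded (n k : ℕ) : Prop :=
  ∀ K L : Set (EuclideanSpace ℝ (Fin n)), IsSymmBody K → IsSymmBody L →
    (secDiffs (n - k) K L).Nonempty ∧ BddAbove (secDiffs (n - k) K L)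

/-! ## The bump functions -/

/-- the bump `|⟪x,θ⟫| (⟪x,θ⟫²/‖x‖²)^b` -/
def hb {E : Type*} [NormedAddCommGroup E] [InnerProductSpace ℝ E] (b : ℕ) (θ x : E) : ℝ :=
  |inner ℝ x θ| * ((inner ℝ x θ) ^ 2 / ‖x‖ ^ 2) ^ b

/-- The constant `A_{m+1}` (dimension `m+1`). -/
def Acst (m b : ℕ) : ℝ :=
  ∫ x : EuclideanSpace ℝ (Fin (m + 1)), Real.exp (-‖x‖) *
    hb b (EuclideanSpace.single (0 : Fin (m + 1)) (1 : ℝ)) x


/-! ## Random directions -/


/-- the unit ball in coordinates -/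
def Bc (m : ℕ) : Set (Fin m → ℝ) := {z | ∑ i, z i ^ 2 < 1}

theorem Bc_meas (m : ℕ) : MeasurableSet (Bc m) := by
  have : IsOpen (Bc m) := isOpen_lt (by fun_prop) continuous_const
  exact this.measurableSet

theorem vball (m : ℕ) :
    volume (Metric.ball (0 : EuclideanSpace ℝ (Fin m)) 1) = volume (Bc m) := by
  have h1 := (PiLp.volume_preserving_ofLp (Fin m)).measure_preimage (Bc_meas m).nullMeasurableSet
  have h2 : (WithLp.ofLp ⁻¹' Bc m : Set (EuclideanSpace ℝ (Fin m))) = Metric.ball 0 1 := by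
    ext x
    rw [mem_preimage, mem_ball_zero_iff, EuclideanSpace.norm_eq, Real.sqrt_lt' one_pos]
    simp [Bc]
  rw [← h1, h2]

theorem vm (m : ℕ) : volume (Bc m) = ENNReal.ofReal (√Real.pi ^ m / Real.Gamma (m / 2 + 1)) := by
  rcases Nat.eq_zero_or_pos m with h | h
  · subst h
    have : Bc 0 = Set.univ := by ext; simp [Bc]
    rw [this, volume_pi, Measure.pi_univ]; simp
  · have : Nonempty (Fin m) := ⟨⟨0, h⟩⟩
    rw [← vball, EuclideanSpace.volume_ball]
    simp

theorem ratio (m : ℕ) :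
    volume (Bc m) ≤ ENNReal.ofReal (√((m:ℝ)+1)) * volume (Bc (m+1)) := by
  rw [vm, vm, ← ENNReal.ofReal_mul (by positivity)]
  apply ENNReal.ofReal_le_ofReal
  obtain ⟨x, hx⟩ : ∃ x : ℝ, x = m/2 + 1 := ⟨_, rfl⟩
  have hm : (0:ℝ) ≤ m := Nat.cast_nonneg m
  have hx0 : 0 < x := by rw [hx]; positivity
  have hx1 : (((m+1 : ℕ) : ℝ) / 2 + 1) = x + 1/2 := by rw [hx]; push_cast; ring
  rw [hx1, ← hx]
  have hG : 0 < Real.Gamma x := Real.Gamma_pos_of_pos hx0
  have hG2 : 0 < Real.Gamma (x + 1/2) := Real.Gamma_pos_of_pos (by linarith)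
  have h1 : Real.Gamma (x + 1/2) ≤ √x * Real.Gamma x := by
    have := Real.Gamma_mul_add_mul_le_rpow_Gamma_mul_rpow_Gamma hx0 (by linarith : 0 < x + 1)
      (by norm_num : (0:ℝ) < 1/2) (by norm_num : (0:ℝ) < 1/2) (by norm_num)
    have e : 1/2 * x + 1/2 * (x+1) = x + 1/2 := by ring
    rw [e, Real.Gamma_add_one hx0.ne', ← Real.sqrt_eq_rpow, ← Real.sqrt_eq_rpow,
      ← Real.sqrt_mul hG.le] at this
    have e2 : Real.Gamma x * (x * Real.Gamma x) = x * (Real.Gamma x)^2 := by ring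
    rw [e2, Real.sqrt_mul hx0.le, Real.sqrt_sq hG.le] at this
    exact this
  have h2 : √x ≤ √((m:ℝ)+1) * √Real.pi := by
    rw [← Real.sqrt_mul (by positivity)]
    apply Real.sqrt_le_sqrt
    have := Real.pi_gt_three
    rw [hx]
    nlinarith
  have h3 : Real.Gamma (x + 1/2) ≤ √((m:ℝ)+1) * √Real.pi * Real.Gamma x :=
    h1.trans (mul_le_mul_of_nonneg_right h2 hG.le)
  rw [mul_div_assoc', div_le_div_iff₀ hG hG2]
  have h4 : 0 ≤ √Real.pi ^ m := by positivity
  calc √Real.pi ^ m * Real.Gamma (x + 1/2)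
      ≤ √Real.pi ^ m * (√((m:ℝ)+1) * √Real.pi * Real.Gamma x) := mul_le_mul_of_nonneg_left h3 h4
    _ = √((m:ℝ)+1) * √Real.pi ^ (m+1) * Real.Gamma x := by ring


theorem slab (n : ℕ) (hn : 1 ≤ n) (ν : EuclideanSpace ℝ (Fin n)) (hν : 1 / 2 ≤ ‖ν‖)
    (s : ℝ) (hs : 0 ≤ s) :
    volume {x : EuclideanSpace ℝ (Fin n) | ‖x‖ < 1 ∧ |inner ℝ x ν| ≤ s} ≤
      ENNReal.ofReal (4 * s * √n) * volume (Metric.ball (0 : EuclideanSpace ℝ (Fin n)) 1) := by
  obtain ⟨m, rfl⟩ : ∃ m, n = m + 1 := ⟨n - 1, by omega⟩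
  have hν0 : 0 < ‖ν‖ := by linarith
  obtain ⟨u, hu⟩ : ∃ u, u = ‖ν‖⁻¹ • ν := ⟨_, rfl⟩
  have hu1 : ‖u‖ = 1 := by
    rw [hu, norm_smul, norm_inv, norm_norm, inv_mul_cancel₀ hν0.ne']
  have hνu : ν = ‖ν‖ • u := by
    rw [hu, smul_smul, mul_inv_cancel₀ hν0.ne', one_smul]
  obtain ⟨e0, he0⟩ : ∃ e0 : EuclideanSpace ℝ (Fin (m+1)), e0 = EuclideanSpace.single 0 1 := ⟨_, rfl⟩
  have he01 : ‖e0‖ = 1 := by rw [he0]; simp
  obtain ⟨T, hT⟩ : ∃ T : EuclideanSpace ℝ (Fin (m+1)) ≃ₗᵢ[ℝ] EuclideanSpace ℝ (Fin (m+1)),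
      T u = e0 := ⟨_, Submodule.reflection_sub (by rw [hu1, he01])⟩
  have hin : ∀ x, inner ℝ x ν = ‖ν‖ * (T x) 0 := by
    intro x
    rw [← T.inner_map_map x ν, hνu, map_smul, hT, inner_smul_right, ← hνu, he0]
    simp [EuclideanSpace.inner_single_right]
  obtain ⟨A, hA⟩ : ∃ A : Set (Fin (m+1) → ℝ), A = {y | ∑ i, y i ^ 2 < 1 ∧ |y 0| ≤ 2 * s} := ⟨_, rfl⟩
  have hAm : MeasurableSet A := by
    rw [hA]
    have a1 : MeasurableSet {y : Fin (m+1) → ℝ | ∑ i, y i ^ 2 < 1} := Bc_meas (m+1)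
    have a2 : IsClosed {y : Fin (m+1) → ℝ | |y 0| ≤ 2 * s} :=
      isClosed_le (by fun_prop) continuous_const
    exact a1.inter a2.measurableSet
  have hsub : {x : EuclideanSpace ℝ (Fin (m+1)) | ‖x‖ < 1 ∧ |inner ℝ x ν| ≤ s} ⊆
      T ⁻¹' (WithLp.ofLp ⁻¹' A) := by
    rintro x ⟨hx1, hx2⟩
    rw [mem_preimage, mem_preimage, hA]
    refine ⟨?_, ?_⟩
    · have h1 : ‖T x‖ < 1 := by rw [T.norm_map]; exact hx1
      rw [EuclideanSpace.norm_eq, Real.sqrt_lt' one_pos] at h1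
      simpa using h1
    · rw [hin, abs_mul, abs_of_pos hν0] at hx2
      have h0 : 0 ≤ |(T x) 0| := abs_nonneg _
      show |(T x) 0| ≤ 2 * s
      nlinarith
  have hv1 : volume (T ⁻¹' (WithLp.ofLp ⁻¹' A)) = volume A := by
    have g1 := (PiLp.volume_preserving_ofLp (Fin (m+1)))
    rw [T.measurePreserving.measure_preimage (g1.measurable hAm).nullMeasurableSet,
      g1.measure_preimage hAm.nullMeasurableSet]
  have hsub2 : A ⊆ (MeasurableEquiv.piFinSuccAbove (fun _ : Fin (m+1) => ℝ) 0) ⁻¹'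
      (Icc (-(2*s)) (2*s) ×ˢ Bc m) := by
    intro y hy
    rw [hA] at hy
    rw [mem_preimage, mem_prod]
    refine ⟨abs_le.1 hy.2, ?_⟩
    have h1 := hy.1
    rw [Fin.sum_univ_succ] at h1
    show ∑ i : Fin m, (y ((0 : Fin (m+1)).succAbove i)) ^ 2 < 1
    simp only [Fin.succAbove_zero]
    have : 0 ≤ y 0 ^ 2 := sq_nonneg _
    linarith
  have hv2 : volume ((MeasurableEquiv.piFinSuccAbove (fun _ : Fin (m+1) => ℝ) 0) ⁻¹'
      (Icc (-(2*s)) (2*s) ×ˢ Bc m)) = ENNReal.ofReal (4 * s) * volume (Bc m) := by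
    rw [(volume_preserving_piFinSuccAbove (fun _ : Fin (m+1) => ℝ) 0).measure_preimage
      (measurableSet_Icc.prod (Bc_meas m)).nullMeasurableSet, Measure.volume_eq_prod,
      Measure.prod_prod, Real.volume_Icc]
    congr 2
    ring
  calc volume {x : EuclideanSpace ℝ (Fin (m+1)) | ‖x‖ < 1 ∧ |inner ℝ x ν| ≤ s}
      ≤ volume A := (measure_mono hsub).trans_eq hv1
    _ ≤ ENNReal.ofReal (4 * s) * volume (Bc m) := (measure_mono hsub2).trans_eq hv2
    _ ≤ ENNReal.ofReal (4 * s) * (ENNReal.ofReal (√((m:ℝ)+1)) * volume (Bc (m+1))) := by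
        gcongr
        exact ratio m
    _ = ENNReal.ofReal (4 * s * √((m+1 : ℕ):ℝ)) *
        volume (Metric.ball (0 : EuclideanSpace ℝ (Fin (m+1))) 1) := by
        rw [vball, ← mul_assoc, ← ENNReal.ofReal_mul (by positivity)]
        push_cast
        rfl


open Classical in
theorem count {E : Type*} [MeasurableSpace E] (μ : Measure E) [IsProbabilityMeasure μ]
    {J : Type*} [Fintype J] (S : J → Set E) (hS : ∀ j, MeasurableSet (S j)) (p : ℝ) (hp : 0 ≤ p)
    (hSp : ∀ j, μ (S j) ≤ ENNReal.ofReal p) (N m : ℕ) (G : Set E) (hG : μ Gᶜ = 0)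
    (h : (Fintype.card J : ℝ) * 2 ^ N * p ^ m < 1) :
    ∃ x : Fin N → E, (∀ i, x i ∈ G) ∧
      ∀ j, (Finset.univ.filter fun i => x i ∈ S j).card < m := by
  set ν : Measure (Fin N → E) := Measure.pi (fun _ : Fin N => μ) with hν
  set B : J → Finset (Fin N) → Set (Fin N → E) := fun j I =>
    Set.univ.pi (fun i => if i ∈ I then S j else univ) with hB
  have hBle : ∀ j (I : Finset (Fin N)), I.card = m → ν (B j I) ≤ (ENNReal.ofReal p) ^ m := by
    intro j I hI
    rw [hν, hB]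
    simp only
    rw [Measure.pi_pi]
    calc ∏ i, μ (if i ∈ I then S j else univ)
        ≤ ∏ i, (if i ∈ I then ENNReal.ofReal p else 1) := by
          apply Finset.prod_le_prod'
          intro i _
          by_cases hi : i ∈ I
          · simp only [hi, if_true]; exact hSp j
          · simp only [hi, if_false]; exact prob_le_one
      _ = (ENNReal.ofReal p) ^ m := by
          rw [Finset.prod_ite_mem, Finset.univ_inter, Finset.prod_const, hI]
  have h0 : ν (⋃ i : Fin N, (fun x : Fin N → E => x i) ⁻¹' Gᶜ) = 0 := by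
    rw [measure_iUnion_null_iff]
    intro i
    exact (Measure.quasiMeasurePreserving_eval (μ := fun _ : Fin N => μ) i).preimage_null hG
  have h1 : ν (⋃ j, ⋃ I ∈ Finset.powersetCard m (Finset.univ : Finset (Fin N)), B j I) < 1 := by
    calc ν (⋃ j, ⋃ I ∈ Finset.powersetCard m (Finset.univ : Finset (Fin N)), B j I)
        ≤ ∑ j, ν (⋃ I ∈ Finset.powersetCard m (Finset.univ : Finset (Fin N)), B j I) :=
          measure_iUnion_fintype_le _ _
      _ ≤ ∑ j : J, ∑ I ∈ Finset.powersetCard m (Finset.univ : Finset (Fin N)), ν (B j I) :=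
          Finset.sum_le_sum fun j _ => measure_biUnion_finset_le _ _
      _ ≤ ∑ j : J, ∑ I ∈ Finset.powersetCard m (Finset.univ : Finset (Fin N)),
            (ENNReal.ofReal p) ^ m :=
          Finset.sum_le_sum fun j _ => Finset.sum_le_sum fun I hI =>
            hBle j I (Finset.mem_powersetCard.1 hI).2
      _ = (Fintype.card J : ENNReal) * (((Finset.powersetCard m (Finset.univ : Finset (Fin N))).card : ENNReal)
            * (ENNReal.ofReal p) ^ m) := by
          simp [Finset.sum_const, nsmul_eq_mul]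
      _ ≤ (Fintype.card J : ENNReal) * ((2 ^ N : ENNReal) * (ENNReal.ofReal p) ^ m) := by
          gcongr
          have : (Finset.powersetCard m (Finset.univ : Finset (Fin N))).card ≤ 2 ^ N := by
            calc (Finset.powersetCard m (Finset.univ : Finset (Fin N))).card
                ≤ (Finset.powerset (Finset.univ : Finset (Fin N))).card :=
                  Finset.card_le_card (by
                    intro s _
                    exact Finset.mem_powerset.2 (Finset.subset_univ s))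
              _ = 2 ^ N := by simp
          exact_mod_cast this
      _ = ENNReal.ofReal ((Fintype.card J : ℝ) * 2 ^ N * p ^ m) := by
          rw [ENNReal.ofReal_mul (by positivity), ENNReal.ofReal_mul (by positivity),
            ENNReal.ofReal_pow hp, ENNReal.ofReal_natCast, ENNReal.ofReal_pow (by norm_num)]
          rw [mul_assoc]
          norm_num
      _ < 1 := by
          rw [ENNReal.ofReal_lt_one]
          exact h
  have h2 : ν ((⋃ i : Fin N, (fun x : Fin N → E => x i) ⁻¹' Gᶜ) ∪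
      (⋃ j, ⋃ I ∈ Finset.powersetCard m (Finset.univ : Finset (Fin N)), B j I)) < 1 :=
    lt_of_le_of_lt (measure_union_le _ _) (by rw [h0, zero_add]; exact h1)
  have h3 : ((⋃ i : Fin N, (fun x : Fin N → E => x i) ⁻¹' Gᶜ) ∪
      (⋃ j, ⋃ I ∈ Finset.powersetCard m (Finset.univ : Finset (Fin N)), B j I)) ≠ univ := by
    intro hu
    rw [hu, measure_univ] at h2
    exact lt_irrefl _ h2
  obtain ⟨x, hx⟩ := (Set.ne_univ_iff_exists_notMem _).1 h3
  rw [Set.mem_union, not_or] at hx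
  obtain ⟨hx1, hx2⟩ := hx
  refine ⟨x, fun i => ?_, fun j => ?_⟩
  · by_contra hi
    exact hx1 (Set.mem_iUnion.2 ⟨i, hi⟩)
  · by_contra hj
    rw [not_lt] at hj
    obtain ⟨I, hI1, hI2⟩ := Finset.exists_subset_card_eq hj
    apply hx2
    refine Set.mem_iUnion.2 ⟨j, Set.mem_iUnion₂.2 ⟨I, Finset.mem_powersetCard.2
      ⟨Finset.subset_univ I, hI2⟩, ?_⟩⟩
    intro i _
    by_cases hi : i ∈ I
    · simp only [hi, if_true]
      exact (Finset.mem_filter.1 (hI1 hi)).2
    · simp only [hi, if_false]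
      exact Set.mem_univ _


theorem netgrid (n k : ℕ) (hk : 1 ≤ k) (ν : EuclideanSpace ℝ (Fin n)) (hν : ‖ν‖ ≤ 1) :
    ∃ c : Fin n → Fin (2 * k + 1),
      ‖ν - (WithLp.toLp 2 (fun i => (((c i : ℕ) : ℝ) - k) / k) : EuclideanSpace ℝ (Fin n))‖
        ≤ √n / k := by
  have hk0 : (0:ℝ) < k := by exact_mod_cast hk
  have hco : ∀ i, |ν i| ≤ 1 := by
    intro i
    have := EuclideanSpace.norm_eq ν
    have h2 : ‖ν i‖ ≤ ‖ν‖ := PiLp.norm_apply_le ν i
    rw [Real.norm_eq_abs] at h2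
    exact h2.trans hν
  have hr : ∀ i, |(k:ℝ) * ν i - round ((k:ℝ) * ν i)| ≤ 1 / 2 := fun i => abs_sub_round _
  have hb : ∀ i, |(k:ℝ) * ν i| ≤ k := by
    intro i
    rw [abs_mul, abs_of_pos hk0]
    nlinarith [hco i]
  have hz : ∀ i, -(k:ℤ) ≤ round ((k:ℝ) * ν i) ∧ round ((k:ℝ) * ν i) ≤ k := by
    intro i
    have h1 := abs_le.1 (hr i)
    have h2 := abs_le.1 (hb i)
    constructor
    · by_contra hc
      push Not at hc
      have h3 : round ((k:ℝ) * ν i) ≤ -(k:ℤ) - 1 := by omega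
      have h4 : ((round ((k:ℝ) * ν i) : ℤ) : ℝ) ≤ -(k:ℝ) - 1 := by exact_mod_cast h3
      linarith
    · by_contra hc
      push Not at hc
      have h3 : (k:ℤ) + 1 ≤ round ((k:ℝ) * ν i) := by omega
      have h4 : (k:ℝ) + 1 ≤ ((round ((k:ℝ) * ν i) : ℤ) : ℝ) := by exact_mod_cast h3
      linarith
  refine ⟨fun i => ⟨(round ((k:ℝ) * ν i) + k).toNat, by have := hz i; omega⟩, ?_⟩
  have hc : ∀ i, (((round ((k:ℝ) * ν i) + k).toNat : ℕ) : ℝ) = ((round ((k:ℝ) * ν i) : ℤ) : ℝ) + k := by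
    intro i
    have h1 : (((round ((k:ℝ) * ν i) + k).toNat : ℕ) : ℤ) = round ((k:ℝ) * ν i) + k :=
      Int.toNat_of_nonneg (by have := hz i; omega)
    exact_mod_cast h1
  rw [EuclideanSpace.norm_eq]
  have hle : ∑ i, ‖(ν - (WithLp.toLp 2 (fun i => ((((⟨(round ((k:ℝ) * ν i) + k).toNat, by have := hz i; omega⟩ : Fin (2 * k + 1)) : ℕ) : ℝ) - k) / k) : EuclideanSpace ℝ (Fin n))) i‖ ^ 2 ≤ (n:ℝ) * (1 / k) ^ 2 := by
    have : ∀ i ∈ (Finset.univ : Finset (Fin n)), ‖(ν - (WithLp.toLp 2 (fun i => ((((⟨(round ((k:ℝ) * ν i) + k).toNat, by have := hz i; omega⟩ : Fin (2 * k + 1)) : ℕ) : ℝ) - k) / k) : EuclideanSpace ℝ (Fin n))) i‖ ^ 2 ≤ (1 / (k:ℝ)) ^ 2 := by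
      intro i _
      apply pow_le_pow_left₀ (norm_nonneg _)
      simp only [PiLp.sub_apply, Real.norm_eq_abs]
      rw [hc i, add_sub_cancel_right]
      have e : ν i - ((round ((k:ℝ) * ν i) : ℤ) : ℝ) / k = ((k:ℝ) * ν i - round ((k:ℝ) * ν i)) / k := by
        field_simp
      rw [e, abs_div, abs_of_pos hk0]
      have := hr i
      gcongr
      linarith
    calc _ ≤ ∑ i : Fin n, (1 / (k:ℝ)) ^ 2 := Finset.sum_le_sum this
      _ = _ := by simp
  calc _ ≤ √((n:ℝ) * (1 / k) ^ 2) := Real.sqrt_le_sqrt hle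
    _ = √n * √((1 / (k:ℝ)) ^ 2) := by rw [Real.sqrt_mul (by positivity)]
    _ = √n / k := by rw [Real.sqrt_sq (by positivity)]; ring


theorem growth (δ : ℝ) (hδ : 0 < δ) : ∃ n₀ : ℕ, 1 ≤ n₀ ∧ ∀ n : ℕ, n₀ ≤ n →
    2 * ((n : ℝ) / δ + 1) + 1 < 2 ^ n := by
  have h1 : Filter.Tendsto (fun n : ℕ => (n : ℝ) ^ 1 * (1 / 2 : ℝ) ^ n) Filter.atTop (nhds 0) :=
    tendsto_pow_const_mul_const_pow_of_abs_lt_one 1 (by norm_num [abs_lt])
  have h2 : Filter.Tendsto (fun n : ℕ => (1 / 2 : ℝ) ^ n) Filter.atTop (nhds 0) :=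
    tendsto_pow_atTop_nhds_zero_of_lt_one (by norm_num) (by norm_num)
  have h3 : Filter.Tendsto (fun n : ℕ => (2 / δ) * ((n : ℝ) ^ 1 * (1 / 2 : ℝ) ^ n) +
      3 * (1 / 2 : ℝ) ^ n) Filter.atTop (nhds ((2 / δ) * 0 + 3 * 0)) :=
    (h1.const_mul _).add (h2.const_mul _)
  rw [mul_zero, mul_zero, add_zero] at h3
  obtain ⟨n₀, hn₀⟩ := Filter.eventually_atTop.1 (h3.eventually_lt_const (show (0:ℝ) < 1 by norm_num))
  refine ⟨max n₀ 1, le_max_right _ _, fun n hn => ?_⟩
  have h4 := hn₀ n ((le_max_left _ _).trans hn)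
  have h5 : (0:ℝ) < 2 ^ n := by positivity
  have h6 : ((2 / δ) * ((n : ℝ) ^ 1 * (1 / 2 : ℝ) ^ n) + 3 * (1 / 2 : ℝ) ^ n) * 2 ^ n =
      2 * ((n : ℝ) / δ + 1) + 1 := by
    rw [one_div, inv_pow]
    field_simp
    ring
  rw [← h6]
  calc _ < 1 * (2:ℝ) ^ n := by gcongr
    _ = 2 ^ n := one_mul _

theorem frame_aux (η : ℝ) (hη : 0 < η) (hη1 : η ≤ 1) : ∃ R : ℕ, 1 ≤ R ∧ ∃ n₀ : ℕ, ∀ n, n₀ ≤ n →
    ∃ θ : Fin (n ^ 2) → EuclideanSpace ℝ (Fin n), (∀ i, ‖θ i‖ = 1) ∧
      ∀ ν : EuclideanSpace ℝ (Fin n), ‖ν‖ = 1 →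
        ∑ i, (1 - (inner ℝ (θ i) ν) ^ 2) ^ (8 * n * R ^ 2) ≤ η * (n : ℝ) ^ 2 := by
  classical
  set p : ℝ := (1 / 4 : ℝ) ^ (2 / η) with hp
  have hp0 : 0 < p := Real.rpow_pos_of_pos (by norm_num) _
  have hp1 : p < 1 := Real.rpow_lt_one (by norm_num) (by norm_num) (by positivity)
  have hpη : p ^ (η / 2) = 1 / 4 := by
    rw [hp, ← Real.rpow_mul (by norm_num)]
    have : 2 / η * (η / 2) = 1 := by field_simp
    rw [this, Real.rpow_one]
  set δ : ℝ := p / 8 with hδ
  have hδ0 : 0 < δ := by positivity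
  have hδ1 : δ < 1 / 8 := by rw [hδ]; linarith
  obtain ⟨R0, hR0⟩ := exists_nat_ge (Real.log (2 / η) / (8 * δ ^ 2))
  obtain ⟨n₀, hn₀, hgrow⟩ := growth δ hδ0
  have hR1 : 1 ≤ max R0 1 := le_max_right _ _
  refine ⟨max R0 1, hR1, n₀, fun n hn => ?_⟩
  set R : ℕ := max R0 1 with hR
  have hexp : Real.exp (-(8 * (R:ℝ) ^ 2 * δ ^ 2)) ≤ η / 2 := by
    have h1 : Real.log (2 / η) ≤ 8 * (R:ℝ) ^ 2 * δ ^ 2 := by
      have h2 : Real.log (2 / η) ≤ R0 * (8 * δ ^ 2) := by
        rwa [div_le_iff₀ (by positivity)] at hR0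
      have h3 : (R0 : ℝ) ≤ (R : ℝ) ^ 2 := by
        have a1 : (R0 : ℝ) ≤ R := by exact_mod_cast le_max_left R0 1
        have a2 : (1 : ℝ) ≤ R := by exact_mod_cast hR1
        nlinarith
      calc Real.log (2 / η) ≤ R0 * (8 * δ ^ 2) := h2
        _ ≤ (R : ℝ) ^ 2 * (8 * δ ^ 2) := by gcongr
        _ = 8 * (R:ℝ) ^ 2 * δ ^ 2 := by ring
    calc Real.exp (-(8 * (R:ℝ) ^ 2 * δ ^ 2)) ≤ Real.exp (-Real.log (2 / η)) := by
          apply Real.exp_le_exp.2; linarith
      _ = η / 2 := by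
          rw [Real.exp_neg, Real.exp_log (by positivity), inv_div]
  have hn1 : 1 ≤ n := hn₀.trans hn
  have hn1r : (1 : ℝ) ≤ n := by exact_mod_cast hn1
  have hn0r : (0 : ℝ) < n := by linarith
  have : Nonempty (Fin n) := ⟨⟨0, hn1⟩⟩
  set E := EuclideanSpace ℝ (Fin n) with hE
  have hsq : 0 < √(n:ℝ) := Real.sqrt_pos.2 hn0r
  have hsq1 : 1 ≤ √(n:ℝ) := Real.one_le_sqrt.2 hn1r
  have hsqsq : √(n:ℝ) * √(n:ℝ) = n := Real.mul_self_sqrt hn0r.le
  set s0 : ℝ := δ / √(n:ℝ) with hs0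
  have hs0pos : 0 < s0 := by positivity
  have hs0half : s0 ≤ 1 / 2 := by
    rw [hs0, div_le_iff₀ hsq]
    nlinarith
  have hs0n : s0 * √(n:ℝ) = δ := by rw [hs0]; field_simp
  have hs0n2 : s0 ^ 2 * n = δ ^ 2 := by
    rw [← hs0n, mul_pow, sq (√(n:ℝ)), hsqsq]
  set k : ℕ := ⌈(n : ℝ) / δ⌉₊ with hk
  have hkr : (n : ℝ) / δ ≤ k := Nat.le_ceil _
  have hkpos : (0:ℝ) < k := lt_of_lt_of_le (by positivity) hkr
  have hk1 : 1 ≤ k := by exact_mod_cast hkpos
  have hkn : √(n:ℝ) / k ≤ s0 := by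
    rw [hs0, div_le_div_iff₀ hkpos hsq, hsqsq]
    rw [div_le_iff₀ hδ0] at hkr
    linarith
  have h2k : (2 * (k:ℝ) + 1) < 2 ^ n := by
    have h1 : (k:ℝ) < (n:ℝ) / δ + 1 := Nat.ceil_lt_add_one (by positivity)
    have h2 := hgrow n hn
    linarith
  set v : (Fin n → Fin (2 * k + 1)) → E :=
    fun c => (WithLp.toLp 2 (fun i => (((c i : ℕ) : ℝ) - k) / k) : E) with hv
  set B : Set E := Metric.ball (0 : E) 1 with hB
  have hBm : MeasurableSet B := Metric.isOpen_ball.measurableSet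
  have hBpos : volume B ≠ 0 := (Metric.measure_ball_pos volume (0:E) one_pos).ne'
  have hBtop : volume B ≠ ⊤ := measure_ball_lt_top.ne
  set μ : Measure E := ProbabilityTheory.cond volume B with hμ
  have : IsProbabilityMeasure μ := ProbabilityTheory.cond_isProbabilityMeasure_of_finite hBpos hBtop
  set S : (Fin n → Fin (2 * k + 1)) → Set E := fun c =>
    if 1 / 2 ≤ ‖v c‖ then {x : E | ‖x‖ < 1 ∧ |inner ℝ x (v c)| ≤ 2 * s0} else ∅ with hS
  have hSm : ∀ c, MeasurableSet (S c) := by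
    intro c
    rw [hS]
    show MeasurableSet (if 1 / 2 ≤ ‖v c‖ then {x : E | ‖x‖ < 1 ∧ |inner ℝ x (v c)| ≤ 2 * s0} else ∅)
    split_ifs
    · apply MeasurableSet.inter
      · exact measurableSet_lt measurable_norm measurable_const
      · have : Continuous fun x : E => |inner ℝ x (v c)| := by fun_prop
        exact measurableSet_le this.measurable measurable_const
    · exact MeasurableSet.empty
  have hSp : ∀ c, μ (S c) ≤ ENNReal.ofReal p := by
    intro c
    rw [hμ, ProbabilityTheory.cond_apply hBm]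
    show (volume B)⁻¹ * volume (B ∩ (if 1 / 2 ≤ ‖v c‖ then
      {x : E | ‖x‖ < 1 ∧ |inner ℝ x (v c)| ≤ 2 * s0} else ∅)) ≤ ENNReal.ofReal p
    split_ifs with hc
    · have h1 := slab n hn1 (v c) hc (2 * s0) (by positivity)
      have h2 : 4 * (2 * s0) * √(n:ℝ) = p := by
        have : 4 * (2 * s0) * √(n:ℝ) = 8 * (s0 * √(n:ℝ)) := by ring
        rw [this, hs0n, hδ]; ring
      rw [h2] at h1
      calc (volume B)⁻¹ * volume (B ∩ {x : E | ‖x‖ < 1 ∧ |inner ℝ x (v c)| ≤ 2 * s0})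
          ≤ (volume B)⁻¹ * (ENNReal.ofReal p * volume B) := by
            gcongr
            exact (measure_mono inter_subset_right).trans h1
        _ = ENNReal.ofReal p * ((volume B)⁻¹ * volume B) := by ring
        _ = ENNReal.ofReal p := by rw [ENNReal.inv_mul_cancel hBpos hBtop, mul_one]
    · simp
  set G : Set E := B \ {0} with hG
  have hGc : μ Gᶜ = 0 := by
    rw [hμ, ProbabilityTheory.cond_apply hBm]
    have h1 : B ∩ Gᶜ ⊆ {0} := by
      rintro x ⟨hx1, hx2⟩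
      by_contra hx
      exact hx2 ⟨hx1, hx⟩
    have h2 : volume (B ∩ Gᶜ) = 0 := measure_mono_null h1 (measure_singleton _)
    rw [h2, mul_zero]
  set N : ℕ := n ^ 2 with hN
  have hNr : (N : ℝ) = (n:ℝ) ^ 2 := by rw [hN]; push_cast; ring
  set m : ℕ := ⌈η / 2 * N⌉₊ with hm
  have hNpos : (0:ℝ) < N := by rw [hNr]; positivity
  have hcount : (Fintype.card (Fin n → Fin (2 * k + 1)) : ℝ) * 2 ^ N * p ^ m < 1 := by
    have h1 : (Fintype.card (Fin n → Fin (2 * k + 1)) : ℝ) = (2 * (k:ℝ) + 1) ^ n := by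
      rw [Fintype.card_fun, Fintype.card_fin, Fintype.card_fin]
      push_cast
      ring
    have h2 : p ^ m ≤ (1 / 4 : ℝ) ^ N := by
      rw [← Real.rpow_natCast, ← Real.rpow_natCast, ← hpη, ← Real.rpow_mul hp0.le]
      exact Real.rpow_le_rpow_of_exponent_ge hp0 hp1.le (Nat.le_ceil _)
    have h3 : (2 * (k:ℝ) + 1) ^ n < (2 ^ n) ^ n := by
      gcongr
    have h4 : ((2:ℝ) ^ n) ^ n = 2 ^ N := by rw [← pow_mul, hN, sq]
    rw [h4] at h3
    rw [h1]
    calc (2 * (k:ℝ) + 1) ^ n * 2 ^ N * p ^ m ≤ (2 * (k:ℝ) + 1) ^ n * 2 ^ N * (1 / 4 : ℝ) ^ N := by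
          gcongr
      _ < 2 ^ N * 2 ^ N * (1 / 4 : ℝ) ^ N := by gcongr
      _ = 1 := by
          rw [← mul_pow, ← mul_pow]
          norm_num
  obtain ⟨x, hxG, hxS⟩ := count μ S hSm p hp0.le hSp N m G hGc hcount
  have hx0 : ∀ i, x i ≠ 0 := fun i h => (hxG i).2 h
  have hxn : ∀ i, ‖x i‖ < 1 := fun i => by
    have := (hxG i).1
    rwa [hB, mem_ball_zero_iff] at this
  have hxnp : ∀ i, 0 < ‖x i‖ := fun i => norm_pos_iff.2 (hx0 i)
  refine ⟨fun i => (‖x i‖)⁻¹ • x i, fun i => ?_, fun ν hν => ?_⟩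
  · rw [norm_smul, norm_inv, norm_norm, inv_mul_cancel₀ (hxnp i).ne']
  obtain ⟨c, hc⟩ := netgrid n k hk1 ν hν.le
  have hcs : ‖ν - v c‖ ≤ s0 := hc.trans hkn
  have hvc : 1 / 2 ≤ ‖v c‖ := by
    have h1 : ‖ν‖ ≤ ‖ν - v c‖ + ‖v c‖ := by
      calc ‖ν‖ = ‖(ν - v c) + v c‖ := by rw [sub_add_cancel]
        _ ≤ _ := norm_add_le _ _
    rw [hν] at h1
    linarith
  set t : Fin N → ℝ := fun i => inner ℝ ((‖x i‖)⁻¹ • x i) ν with ht
  have htx : ∀ i, inner ℝ (x i) ν = ‖x i‖ * t i := by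
    intro i
    rw [ht]
    show inner ℝ (x i) ν = ‖x i‖ * inner ℝ ((‖x i‖)⁻¹ • x i) ν
    rw [real_inner_smul_left, ← mul_assoc, mul_inv_cancel₀ (hxnp i).ne', one_mul]
  have ht1 : ∀ i, |t i| ≤ 1 := by
    intro i
    have h1 : |t i| ≤ ‖(‖x i‖)⁻¹ • x i‖ * ‖ν‖ := abs_real_inner_le_norm _ _
    rw [norm_smul, norm_inv, norm_norm, inv_mul_cancel₀ (hxnp i).ne', hν, one_mul] at h1
    exact h1
  have ht2 : ∀ i, t i ^ 2 ≤ 1 := fun i => by
    rw [← sq_abs]
    have := ht1 i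
    have := abs_nonneg (t i)
    nlinarith
  have hin : ∀ i, |t i| ≤ s0 → x i ∈ S c := by
    intro i hi
    show x i ∈ (if 1 / 2 ≤ ‖v c‖ then {x : E | ‖x‖ < 1 ∧ |inner ℝ x (v c)| ≤ 2 * s0} else ∅)
    rw [if_pos hvc]
    refine ⟨hxn i, ?_⟩
    have h1 : inner ℝ (x i) (v c) = inner ℝ (x i) ν - inner ℝ (x i) (ν - v c) := by
      rw [inner_sub_right]; ring
    have h2 : |inner ℝ (x i) ν| ≤ s0 := by
      rw [htx, abs_mul, abs_of_pos (hxnp i)]
      calc ‖x i‖ * |t i| ≤ 1 * s0 := by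
            have := hxn i
            gcongr
        _ = s0 := one_mul _
    have h3 : |inner ℝ (x i) (ν - v c)| ≤ s0 := by
      calc |inner ℝ (x i) (ν - v c)| ≤ ‖x i‖ * ‖ν - v c‖ := abs_real_inner_le_norm _ _
        _ ≤ 1 * s0 := by
            have := hxn i
            gcongr
        _ = s0 := one_mul _
    rw [h1]
    calc |inner ℝ (x i) ν - inner ℝ (x i) (ν - v c)| ≤
        |inner ℝ (x i) ν| + |inner ℝ (x i) (ν - v c)| := abs_sub _ _
      _ ≤ 2 * s0 := by linarith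
  set q : ℕ := 8 * n * R ^ 2 with hq
  have hsplit : ∑ i, (1 - t i ^ 2) ^ q =
      ∑ i ∈ Finset.univ.filter (fun i => x i ∈ S c), (1 - t i ^ 2) ^ q +
      ∑ i ∈ Finset.univ.filter (fun i => ¬ x i ∈ S c), (1 - t i ^ 2) ^ q :=
    (Finset.sum_filter_add_sum_filter_not _ _ _).symm
  have hA : ∑ i ∈ Finset.univ.filter (fun i => x i ∈ S c), (1 - t i ^ 2) ^ q ≤ η / 2 * N := by
    have h1 : ∑ i ∈ Finset.univ.filter (fun i => x i ∈ S c), (1 - t i ^ 2) ^ q ≤
        ∑ i ∈ Finset.univ.filter (fun i => x i ∈ S c), (1:ℝ) := by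
      apply Finset.sum_le_sum
      intro i _
      apply pow_le_one₀
      · linarith [ht2 i]
      · linarith [sq_nonneg (t i)]
    rw [Finset.sum_const, nsmul_eq_mul, mul_one] at h1
    have h2 := hxS c
    rw [hm, Nat.lt_ceil] at h2
    exact h1.trans h2.le
  have hB2 : ∑ i ∈ Finset.univ.filter (fun i => ¬ x i ∈ S c), (1 - t i ^ 2) ^ q ≤ η / 2 * N := by
    have h1 : ∑ i ∈ Finset.univ.filter (fun i => ¬ x i ∈ S c), (1 - t i ^ 2) ^ q ≤
        ∑ i ∈ Finset.univ.filter (fun i => ¬ x i ∈ S c), (η / 2) := by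
      apply Finset.sum_le_sum
      intro i hi
      have hi' : s0 < |t i| := by
        by_contra hcon
        push Not at hcon
        exact (Finset.mem_filter.1 hi).2 (hin i hcon)
      have h2 : s0 ^ 2 ≤ t i ^ 2 := by
        rw [← sq_abs (t i)]
        gcongr
      have h3 : 1 - t i ^ 2 ≤ Real.exp (-s0 ^ 2) := by
        have := Real.one_sub_le_exp_neg (s0 ^ 2)
        linarith
      calc (1 - t i ^ 2) ^ q ≤ (Real.exp (-s0 ^ 2)) ^ q := by
            apply pow_le_pow_left₀ _ h3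
            linarith [ht2 i]
        _ = Real.exp (-(8 * (R:ℝ) ^ 2 * δ ^ 2)) := by
            rw [← Real.exp_nat_mul]
            congr 1
            rw [hq]
            push_cast
            rw [← hs0n2]
            ring
        _ ≤ η / 2 := hexp
    rw [Finset.sum_const, nsmul_eq_mul] at h1
    refine h1.trans ?_
    rw [mul_comm]
    gcongr
    have := Finset.card_filter_le (Finset.univ : Finset (Fin N)) (fun i => ¬ x i ∈ S c)
    rwa [Finset.card_univ, Fintype.card_fin] at this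
  show ∑ i, (1 - t i ^ 2) ^ q ≤ η * (n : ℝ) ^ 2
  rw [hsplit, ← hNr]
  linarith


theorem frame (η : ℝ) (hη : 0 < η) : ∃ R : ℕ, 1 ≤ R ∧ ∃ n₀ : ℕ, ∀ n, n₀ ≤ n →
    ∃ θ : Fin (n ^ 2) → EuclideanSpace ℝ (Fin n), (∀ i, ‖θ i‖ = 1) ∧
      ∀ ν : EuclideanSpace ℝ (Fin n), ‖ν‖ = 1 →
        ∑ i, (1 - (inner ℝ (θ i) ν) ^ 2) ^ (8 * n * R ^ 2) ≤ η * (n : ℝ) ^ 2 := by
  obtain ⟨R, hR, n₀, h⟩ := frame_aux (min η 1) (lt_min hη one_pos) (min_le_right _ _)
  refine ⟨R, hR, n₀, fun n hn => ?_⟩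
  obtain ⟨θ, h1, h2⟩ := h n hn
  refine ⟨θ, h1, fun ν hν => (h2 ν hν).trans ?_⟩
  have : min η 1 ≤ η := min_le_left _ _
  gcongr

/-! ## The body `K₀` -/


theorem maurey_step {E : Type*} [NormedAddCommGroup E] [InnerProductSpace ℝ E] {ι : Type*}
    (v : ι → E) (x : E) (hx : x ∈ convexHull ℝ (Set.range v)) (y : E) :
    ∃ i, inner ℝ y (v i - x) ≤ 0 := by
  by_contra h
  push Not at h
  have h1 : convexHull ℝ (Set.range v) ⊆ {z | inner ℝ y x < inner ℝ y z} := by
    apply convexHull_min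
    · rintro _ ⟨i, rfl⟩
      have := h i
      rw [inner_sub_right] at this
      show inner ℝ y x < inner ℝ y (v i)
      linarith
    · exact convex_halfSpace_gt (IsLinearMap.mk (fun a b => inner_add_right _ _ _)
        (fun c a => by rw [inner_smul_right]; simp)) _
  have h2 : inner ℝ y x < inner ℝ y x := h1 hx
  exact lt_irrefl _ h2

theorem maurey {E : Type*} [NormedAddCommGroup E] [InnerProductSpace ℝ E] {ι : Type*} [Fintype ι]
    (v : ι → E) (R : ℝ) (hv : ∀ i, ‖v i‖ ≤ R) (k : ℕ) (hk : 1 ≤ k) (x : E)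
    (hx : x ∈ convexHull ℝ (Set.range v)) :
    ∃ c : Fin k → ι, ‖x - (k : ℝ)⁻¹ • ∑ j, v (c j)‖ ≤ 2 * R / √k := by
  have hxR : ‖x‖ ≤ R := by
    have h1 : convexHull ℝ (Set.range v) ⊆ Metric.closedBall 0 R := by
      apply convexHull_min _ (convex_closedBall 0 R)
      rintro _ ⟨i, rfl⟩
      rw [mem_closedBall_zero_iff]; exact hv i
    have := h1 hx
    rwa [mem_closedBall_zero_iff] at this
  have hR : 0 ≤ R := (norm_nonneg x).trans hxR
  have key : ∀ k : ℕ, ∃ c : Fin k → ι, ‖∑ j, (v (c j) - x)‖ ^ 2 ≤ k * (2 * R) ^ 2 := by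
    intro k
    induction k with
    | zero => exact ⟨Fin.elim0, by simp⟩
    | succ k ih =>
      obtain ⟨c, hc⟩ := ih
      obtain ⟨i, hi⟩ := maurey_step v x hx (∑ j, (v (c j) - x))
      refine ⟨Fin.snoc c i, ?_⟩
      rw [Fin.sum_univ_castSucc]
      simp only [Fin.snoc_castSucc, Fin.snoc_last]
      rw [norm_add_sq_real]
      have h2 : ‖v i - x‖ ≤ 2 * R := by
        calc ‖v i - x‖ ≤ ‖v i‖ + ‖x‖ := norm_sub_le _ _
          _ ≤ R + R := add_le_add (hv i) hxR
          _ = 2 * R := by ring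
      have h3 : ‖v i - x‖ ^ 2 ≤ (2 * R) ^ 2 := pow_le_pow_left₀ (norm_nonneg _) h2 2
      push_cast
      linarith
  obtain ⟨c, hc⟩ := key k
  refine ⟨c, ?_⟩
  have hk0 : (0 : ℝ) < k := by
    have : 0 < k := by omega
    exact_mod_cast this
  have h1 : x - (k : ℝ)⁻¹ • ∑ j, v (c j) = -((k : ℝ)⁻¹ • ∑ j, (v (c j) - x)) := by
    rw [Finset.sum_sub_distrib, smul_sub]
    simp only [Finset.sum_const, Finset.card_univ, Fintype.card_fin]
    rw [← Nat.cast_smul_eq_nsmul ℝ, smul_smul, inv_mul_cancel₀ hk0.ne', one_smul]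
    abel
  rw [h1, norm_neg, norm_smul, norm_inv, Real.norm_eq_abs, abs_of_pos hk0]
  have h2 : ‖∑ j, (v (c j) - x)‖ ≤ √k * (2 * R) := by
    apply le_of_sq_le_sq _ (by positivity)
    rw [mul_pow, Real.sq_sqrt hk0.le]
    exact hc
  have h3 : √(k : ℝ) * √k = k := Real.mul_self_sqrt hk0.le
  have h4 : 0 < √(k : ℝ) := Real.sqrt_pos.mpr hk0
  rw [le_div_iff₀ h4]
  calc (k : ℝ)⁻¹ * ‖∑ j, (v (c j) - x)‖ * √k ≤ (k : ℝ)⁻¹ * (√k * (2 * R)) * √k := by
        gcongr
    _ = (k : ℝ)⁻¹ * (√k * √k) * (2 * R) := by ring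
    _ = 2 * R := by rw [h3, inv_mul_cancel₀ hk0.ne', one_mul]


open scoped Pointwise Topology in

theorem body0 (n N R : ℕ) (hn : 1 ≤ n) (hN : 1 ≤ N) (hR : 1 ≤ R)
    (θ : Fin N → EuclideanSpace ℝ (Fin n)) (hθ : ∀ i, ‖θ i‖ = 1) :
    ∃ g : EuclideanSpace ℝ (Fin n) → ℝ, (∀ x y, g (x + y) ≤ g x + g y) ∧
      (∀ (r : ℝ) x, g (r • x) = |r| * g x) ∧ (∀ x, ‖x‖ / R ≤ g x) ∧ (∀ x, g x ≤ ‖x‖) ∧
      (∀ i x, (1 - 1 / (2 * (R : ℝ) ^ 2)) * ‖x‖ ^ 2 ≤ (inner ℝ x (θ i)) ^ 2 → g x = ‖x‖ / R) ∧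
      volume {x | g x ≤ 1} ≤ ENNReal.ofReal ((2 * (N : ℝ)) ^ (4 * R ^ 2) * 2 ^ n) *
        volume (Metric.ball (0 : EuclideanSpace ℝ (Fin n)) 1) := by
  have hR1 : (1 : ℝ) ≤ R := by exact_mod_cast hR
  have hR0 : (0 : ℝ) < R := by linarith
  let v : Fin N × Bool → EuclideanSpace ℝ (Fin n) :=
    fun p => (if p.2 then (R : ℝ) else -(R : ℝ)) • θ p.1
  have hvt : ∀ i, v (i, true) = (R : ℝ) • θ i := fun i => by simp [v]
  have hvf : ∀ i, v (i, false) = (-(R : ℝ)) • θ i := fun i => by simp [v]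
  have hvn : ∀ p, ‖v p‖ ≤ R := by
    rintro ⟨i, b⟩
    cases b
    · rw [hvf, norm_smul, hθ, norm_neg, Real.norm_of_nonneg hR0.le, mul_one]
    · rw [hvt, norm_smul, hθ, Real.norm_of_nonneg hR0.le, mul_one]
  have hneg : -(Set.range v) = Set.range v := by
    ext x
    rw [Set.mem_neg]
    constructor
    · rintro ⟨⟨i, b⟩, h⟩
      refine ⟨(i, !b), ?_⟩
      cases b
      · show v (i, true) = x
        rw [hvt]
        rw [hvf, neg_smul] at h
        exact neg_injective h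
      · show v (i, false) = x
        rw [hvf, neg_smul]
        rw [hvt] at h
        rw [h, neg_neg]
    · rintro ⟨⟨i, b⟩, h⟩
      refine ⟨(i, !b), ?_⟩
      cases b
      · show v (i, true) = -x
        rw [← h, hvt, hvf, neg_smul, neg_neg]
      · show v (i, false) = -x
        rw [← h, hvt, hvf, neg_smul]
  set P := convexHull ℝ (Set.range v) with hP
  set Q := P + Metric.closedBall (0 : EuclideanSpace ℝ (Fin n)) 1 with hQ
  have hPneg : ∀ x ∈ P, -x ∈ P := by
    intro x hx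
    have : -x ∈ convexHull ℝ (-(Set.range v)) := by
      rw [convexHull_neg]
      simpa using hx
    rwa [hneg] at this
  have hP0 : (0 : EuclideanSpace ℝ (Fin n)) ∈ P := by
    have h1 : v (⟨0, hN⟩, true) ∈ P := subset_convexHull ℝ _ ⟨_, rfl⟩
    have h2 := hPneg _ h1
    have h3 := (convex_convexHull ℝ (Set.range v)) h1 h2 (by norm_num : (0:ℝ) ≤ 1/2)
      (by norm_num : (0:ℝ) ≤ 1/2) (by norm_num)
    rw [smul_neg, add_neg_cancel] at h3
    exact h3
  have hQc : Convex ℝ Q := (convex_convexHull ℝ _).add (convex_closedBall 0 1)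
  have hPk : IsCompact P := Set.Finite.isCompact_convexHull (𝕜 := ℝ) (Set.finite_range v)
  have hQk : IsCompact Q := hPk.add (isCompact_closedBall 0 1)
  have hBQ : Metric.closedBall (0 : EuclideanSpace ℝ (Fin n)) 1 ⊆ Q := by
    intro x hx
    exact ⟨0, hP0, x, hx, zero_add x⟩
  have hQn : Q ∈ 𝓝 (0 : EuclideanSpace ℝ (Fin n)) :=
    Filter.mem_of_superset (Metric.closedBall_mem_nhds 0 one_pos) hBQ
  have hQabs : Absorbent ℝ Q := absorbent_nhds_zero hQn
  have hQneg : ∀ x ∈ Q, -x ∈ Q := by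
    rintro x ⟨p, hp, b, hb, rfl⟩
    refine ⟨-p, hPneg p hp, -b, ?_, ?_⟩
    · rw [mem_closedBall_zero_iff] at hb ⊢
      rwa [norm_neg]
    · show -p + -b = -(p + b)
      abel
  have hgl : ∀ x, gauge Q x ≤ ‖x‖ := by
    intro x
    have h1 := gauge_mono (absorbent_nhds_zero (Metric.closedBall_mem_nhds (0 : EuclideanSpace ℝ (Fin n)) one_pos) : Absorbent ℝ _) hBQ x
    rw [gauge_closedBall zero_le_one, div_one] at h1
    exact h1
  refine ⟨fun x => max (‖x‖ / R) (gauge Q x), ?_, ?_, ?_, ?_, ?_, ?_⟩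
  · intro x y
    show max (‖x + y‖ / R) (gauge Q (x + y)) ≤ max (‖x‖ / R) (gauge Q x) + max (‖y‖ / R) (gauge Q y)
    apply max_le
    · have h1 : ‖x + y‖ / R ≤ ‖x‖ / R + ‖y‖ / R := by
        rw [← add_div]
        exact div_le_div_of_nonneg_right (norm_add_le x y) hR0.le
      exact h1.trans (add_le_add (le_max_left _ _) (le_max_left _ _))
    · exact (gauge_add_le hQc hQabs x y).trans (add_le_add (le_max_right _ _) (le_max_right _ _))
  · intro r x
    show max (‖r • x‖ / R) (gauge Q (r • x)) = |r| * max (‖x‖ / R) (gauge Q x)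
    have h1 : gauge Q (r • x) = |r| * gauge Q x := by
      have h2 : gauge Q (|r| • x) = |r| * gauge Q x := by
        rw [gauge_smul_of_nonneg (abs_nonneg r), smul_eq_mul]
      rcases abs_choice r with h | h
      · rw [← h2, h]
      · rw [← h2, h, neg_smul, gauge_neg hQneg]
    rw [h1, norm_smul, Real.norm_eq_abs, mul_div_assoc, mul_max_of_nonneg _ _ (abs_nonneg r)]
  · intro x
    exact le_max_left _ _
  · intro x
    apply max_le
    · exact div_le_self (norm_nonneg x) hR1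
    · exact hgl x
  · intro i x hx
    apply max_eq_left
    by_cases hx0 : x = 0
    · subst hx0
      simp [gauge_zero]
    have hxn : 0 < ‖x‖ := norm_pos_iff.mpr hx0
    apply gauge_le_of_mem (by positivity)
    refine ⟨(R / ‖x‖) • x, ?_, ?_⟩
    swap
    · show (‖x‖ / R) • ((R / ‖x‖) • x) = x
      rw [smul_smul]
      have : ‖x‖ / R * (R / ‖x‖) = 1 := by field_simp
      rw [this, one_smul]
    have habs : |inner ℝ x (θ i)| ≤ ‖x‖ := by
      have := abs_real_inner_le_norm x (θ i)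
      rwa [hθ, mul_one] at this
    have hkey : (1 - 1 / (2 * (R : ℝ) ^ 2)) * ‖x‖ ≤ |inner ℝ x (θ i)| := by
      rw [← sq_abs (inner ℝ x (θ i))] at hx
      have h1 : |inner ℝ x (θ i)| ^ 2 ≤ ‖x‖ * |inner ℝ x (θ i)| := by
        rw [sq]
        exact mul_le_mul_of_nonneg_right habs (abs_nonneg _)
      have h2 : (1 - 1 / (2 * (R : ℝ) ^ 2)) * ‖x‖ * ‖x‖ ≤ |inner ℝ x (θ i)| * ‖x‖ := by
        nlinarith
      exact le_of_mul_le_mul_right h2 hxn
    -- sign
    have hmain : ∀ e : ℝ, (e = 1 ∨ e = -1) → e * inner ℝ x (θ i) = |inner ℝ x (θ i)| →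
        ‖(R / ‖x‖) • x - (e * R) • θ i‖ ≤ 1 := by
      intro e he h
      have hee : e ^ 2 = 1 := by rcases he with rfl | rfl <;> norm_num
      have h1 : ‖(R / ‖x‖) • x - (e * R) • θ i‖ ^ 2 ≤ 1 := by
        rw [@norm_sub_sq_real, norm_smul, norm_smul, hθ, inner_smul_left, inner_smul_right]
        simp only [Real.norm_eq_abs, mul_one, mul_pow, sq_abs, conj_trivial]
        have h3 : (R : ℝ) / ‖x‖ * (e * R * inner ℝ x (θ i)) = R ^ 2 / ‖x‖ * |inner ℝ x (θ i)| := by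
          rw [← h]; ring
        have h4 : ((R : ℝ) / ‖x‖) ^ 2 * ‖x‖ ^ 2 = R ^ 2 := by field_simp
        rw [h3, h4, hee, one_mul]
        have h5 : (R : ℝ) ^ 2 / ‖x‖ * ((1 - 1 / (2 * (R : ℝ) ^ 2)) * ‖x‖) ≤
            R ^ 2 / ‖x‖ * |inner ℝ x (θ i)| :=
          mul_le_mul_of_nonneg_left hkey (by positivity)
        have h6 : (R : ℝ) ^ 2 / ‖x‖ * ((1 - 1 / (2 * (R : ℝ) ^ 2)) * ‖x‖) = R ^ 2 - 1 / 2 := by
          field_simp
        rw [h6] at h5
        linarith
      have h2 := norm_nonneg ((R / ‖x‖) • x - (e * R) • θ i)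
      nlinarith
    have hfin : ∀ e : ℝ, (e = 1 ∨ e = -1) → e * inner ℝ x (θ i) = |inner ℝ x (θ i)| →
        (R / ‖x‖) • x ∈ Q := by
      intro e he h
      have h1 := hmain e he h
      refine ⟨(e * R) • θ i, ?_, (R / ‖x‖) • x - (e * R) • θ i, ?_, ?_⟩
      · rcases he with rfl | rfl
        · rw [one_mul]
          exact subset_convexHull ℝ _ ⟨(i, true), hvt i⟩
        · rw [neg_one_mul]
          exact subset_convexHull ℝ _ ⟨(i, false), hvf i⟩
      · rw [mem_closedBall_zero_iff]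
        exact h1
      · show (e * R) • θ i + ((R / ‖x‖) • x - (e * R) • θ i) = (R / ‖x‖) • x
        abel
    rcases abs_choice (inner ℝ x (θ i)) with h | h
    · exact hfin 1 (Or.inl rfl) (by rw [one_mul, h])
    · exact hfin (-1) (Or.inr rfl) (by rw [neg_one_mul, h])
  · set k := 4 * R ^ 2 with hk
    have hk1 : 1 ≤ k := by
      have : 1 ≤ R ^ 2 := Nat.one_le_pow _ _ hR
      omega
    have hsub : {x | max (‖x‖ / R) (gauge Q x) ≤ 1} ⊆
        ⋃ c : Fin k → Fin N × Bool, Metric.closedBall ((k : ℝ)⁻¹ • ∑ j, v (c j)) 2 := by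
      intro x hx
      have h1 : gauge Q x ≤ 1 := (le_max_right _ _).trans hx
      rw [gauge_le_one_iff_mem_closure hQc hQn, hQk.isClosed.closure_eq] at h1
      obtain ⟨p, hp, b, hb, rfl⟩ := h1
      obtain ⟨c, hc⟩ := maurey v R hvn k hk1 p hp
      have h2 : 2 * (R : ℝ) / √(k : ℝ) = 1 := by
        have h3 : √(k : ℝ) = 2 * R := by
          rw [hk]
          push_cast
          rw [show (4 : ℝ) * (R : ℝ) ^ 2 = (2 * R) ^ 2 by ring]
          exact Real.sqrt_sq (by positivity)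
        rw [h3]
        exact div_self (by positivity)
      rw [h2] at hc
      refine Set.mem_iUnion.mpr ⟨c, ?_⟩
      rw [mem_closedBall_iff_norm]
      rw [mem_closedBall_zero_iff] at hb
      have h4 : p + b - (k : ℝ)⁻¹ • ∑ j, v (c j) = (p - (k : ℝ)⁻¹ • ∑ j, v (c j)) + b := by abel
      show ‖p + b - (k : ℝ)⁻¹ • ∑ j, v (c j)‖ ≤ 2
      rw [h4]
      calc _ ≤ _ := norm_add_le _ _
        _ ≤ 1 + 1 := add_le_add hc hb
        _ = 2 := by norm_num
    calc volume {x | max (‖x‖ / R) (gauge Q x) ≤ 1} ≤ _ := measure_mono hsub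
      _ ≤ _ := measure_iUnion_fintype_le _ _
      _ = _ := by
        simp_rw [Measure.addHaar_closedBall volume _ (by norm_num : (0:ℝ) ≤ 2)]
        rw [Finset.sum_const, Finset.card_univ, nsmul_eq_mul, ← mul_assoc]
        congr 1
        rw [ENNReal.ofReal_mul (by positivity)]
        congr 1
        · rw [Fintype.card_fun, Fintype.card_prod, Fintype.card_fin, Fintype.card_fin,
            Fintype.card_bool]
          rw [ENNReal.ofReal_pow (by positivity), ENNReal.ofReal_mul (by norm_num)]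
          push_cast
          rw [mul_comm]
          simp
        · simp

/-! ## The bumps -/


theorem hbs_P (b : ℕ) (a v : ℝ) (hv : 0 < v) : a * (a ^ 2 / v ^ 2) ^ b = v * (a / v) ^ (2 * b + 1) := by
  rw [pow_succ (a / v), pow_mul (a / v), div_pow a v 2]
  field_simp

theorem hbs_mono (b : ℕ) (a v w : ℝ) (ha : 0 ≤ a) (hav : a ≤ v) (hv : 0 < v) (hvw : v ≤ w) :
    a * (a ^ 2 / v ^ 2) ^ b + 2 * b * v ≤ a * (a ^ 2 / w ^ 2) ^ b + 2 * b * w := by
  have hw : 0 < w := lt_of_lt_of_le hv hvw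
  set t := v / w with ht
  have ht0 : 0 < t := div_pos hv hw
  have ht1 : t ≤ 1 := (div_le_one hw).2 hvw
  have e1 : a * (a ^ 2 / w ^ 2) ^ b = a * (a ^ 2 / v ^ 2) ^ b * t ^ (2 * b) := by
    have : a ^ 2 / w ^ 2 = a ^ 2 / v ^ 2 * t ^ 2 := by
      rw [ht]
      field_simp
    rw [this, mul_pow, pow_mul, mul_assoc]
  have e2 : a * (a ^ 2 / v ^ 2) ^ b ≤ v := by
    have h1 : (a ^ 2 / v ^ 2) ^ b ≤ 1 := by
      apply pow_le_one₀ (by positivity)
      rw [div_le_one (by positivity)]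
      exact pow_le_pow_left₀ ha hav 2
    have h2 : 0 ≤ (a ^ 2 / v ^ 2) ^ b := by positivity
    nlinarith
  have e2' : 0 ≤ a * (a ^ 2 / v ^ 2) ^ b := by positivity
  have e3 : 1 + ((2 * b : ℕ) : ℝ) * (t - 1) ≤ (1 + (t - 1)) ^ (2 * b) :=
    one_add_mul_le_pow (by linarith) _
  rw [show 1 + (t - 1) = t by ring] at e3
  push_cast at e3
  have e4 : t ^ (2 * b) ≤ 1 := pow_le_one₀ ht0.le ht1
  have e5 : a * (a ^ 2 / v ^ 2) ^ b * (1 - t ^ (2 * b)) ≤ v * (2 * b * (1 - t)) := by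
    apply mul_le_mul e2 (by linarith) (by linarith) hv.le
  have e6 : v * (2 * b * (1 - t)) ≤ 2 * b * (w - v) := by
    have h1 : v * (1 - t) ≤ w - v := by
      have h2 : w - v = w * (1 - t) := by
        rw [ht]
        field_simp
      rw [h2]
      exact mul_le_mul_of_nonneg_right hvw (by linarith)
    have h3 : (0 : ℝ) ≤ 2 * b := by positivity
    nlinarith
  rw [e1]
  nlinarith

theorem hbs_add (b : ℕ) (a a' v v' : ℝ) (ha : 0 ≤ a) (ha' : 0 ≤ a') (hv : 0 < v) (hv' : 0 < v') :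
    (a + a') * ((a + a') ^ 2 / (v + v') ^ 2) ^ b ≤
      a * (a ^ 2 / v ^ 2) ^ b + a' * (a' ^ 2 / v' ^ 2) ^ b := by
  rw [hbs_P b _ _ (by positivity : 0 < v + v'), hbs_P b a v hv, hbs_P b a' v' hv']
  have hw : 0 < v + v' := by positivity
  have h0 : ConvexOn ℝ (Set.Ici (0 : ℝ)) fun x : ℝ => x ^ (2 * b + 1) := convexOn_pow (2 * b + 1)
  have h := h0.2
    (show a / v ∈ Set.Ici (0 : ℝ) from div_nonneg ha hv.le)
    (show a' / v' ∈ Set.Ici (0 : ℝ) from div_nonneg ha' hv'.le)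
    (show 0 ≤ v / (v + v') by positivity) (show 0 ≤ v' / (v + v') by positivity)
    (by field_simp)
  simp only [smul_eq_mul] at h
  have e1 : v / (v + v') * (a / v) + v' / (v + v') * (a' / v') = (a + a') / (v + v') := by
    field_simp
  rw [e1] at h
  have h2 := mul_le_mul_of_nonneg_left h hw.le
  calc (v + v') * ((a + a') / (v + v')) ^ (2 * b + 1) ≤ _ := h2
    _ = v * (a / v) ^ (2 * b + 1) + v' * (a' / v') ^ (2 * b + 1) := by
        field_simp

theorem hbs_mono_a (b : ℕ) (a a' w : ℝ) (ha : 0 ≤ a) (haa : a ≤ a') :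
    a * (a ^ 2 / w ^ 2) ^ b ≤ a' * (a' ^ 2 / w ^ 2) ^ b := by
  have h1 : a ^ 2 / w ^ 2 ≤ a' ^ 2 / w ^ 2 := by
    apply div_le_div_of_nonneg_right _ (by positivity)
    exact pow_le_pow_left₀ ha haa 2
  exact mul_le_mul haa (pow_le_pow_left₀ (by positivity) h1 b) (by positivity) (by linarith)

theorem hbs_eq {E : Type*} [NormedAddCommGroup E] [InnerProductSpace ℝ E] (b : ℕ) (θ x : E) :
    hb b θ x = |inner ℝ x θ| * (|inner ℝ x θ| ^ 2 / ‖x‖ ^ 2) ^ b := by
  rw [hb, sq_abs]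

theorem hbs_zero {E : Type*} [NormedAddCommGroup E] [InnerProductSpace ℝ E] (b : ℕ) (θ : E) :
    hb b θ 0 = 0 := by
  simp [hb]

theorem hbs_nonneg {E : Type*} [NormedAddCommGroup E] [InnerProductSpace ℝ E] (b : ℕ) (θ x : E) :
    0 ≤ hb b θ x := by
  unfold hb
  positivity


theorem hb_sub {E : Type*} [NormedAddCommGroup E] [InnerProductSpace ℝ E] (b : ℕ) (θ : E)
    (hθ : ‖θ‖ = 1) (x y : E) :
    hb b θ (x + y) + 2 * b * ‖x + y‖ ≤ (hb b θ x + 2 * b * ‖x‖) + (hb b θ y + 2 * b * ‖y‖) := by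
  by_cases hx : x = 0
  · subst hx
    rw [hbs_zero, zero_add, norm_zero]
    linarith
  by_cases hy : y = 0
  · subst hy
    rw [hbs_zero, add_zero, norm_zero]
    linarith
  by_cases hxy : x + y = 0
  · rw [hxy, hbs_zero, norm_zero]
    have h1 := hbs_nonneg b θ x
    have h2 := hbs_nonneg b θ y
    have h3 : 0 ≤ 2 * (b : ℝ) * ‖x‖ := by positivity
    have h4 : 0 ≤ 2 * (b : ℝ) * ‖y‖ := by positivity
    linarith
  have hcs : ∀ z : E, |inner ℝ z θ| ≤ ‖z‖ := by
    intro z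
    have := abs_real_inner_le_norm z θ
    rwa [hθ, mul_one] at this
  have hvx : 0 < ‖x‖ := norm_pos_iff.2 hx
  have hvy : 0 < ‖y‖ := norm_pos_iff.2 hy
  have hvxy : 0 < ‖x + y‖ := norm_pos_iff.2 hxy
  have h1 := hbs_mono b |inner ℝ (x + y) θ| ‖x + y‖ (‖x‖ + ‖y‖) (abs_nonneg _) (hcs _) hvxy
    (norm_add_le x y)
  have h2 := hbs_mono_a b |inner ℝ (x + y) θ| (|inner ℝ x θ| + |inner ℝ y θ|) (‖x‖ + ‖y‖)
    (abs_nonneg _) (by rw [inner_add_left]; exact abs_add_le _ _)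
  have h3 := hbs_add b |inner ℝ x θ| |inner ℝ y θ| ‖x‖ ‖y‖ (abs_nonneg _) (abs_nonneg _) hvx hvy
  rw [hbs_eq, hbs_eq, hbs_eq]
  linarith


theorem scale {E : Type*} [NormedAddCommGroup E] [InnerProductSpace ℝ E] [FiniteDimensional ℝ E]
    [MeasurableSpace E] [BorelSpace E] (f : E → ℝ) (d : ℕ)
    (hf : ∀ (r : ℝ) x, 0 < r → f (r • x) = r ^ d * f x) (s : ℝ) (hs : 0 < s) :
    ∫ x, Real.exp (-(s * ‖x‖)) * f x =
      (s⁻¹) ^ (Module.finrank ℝ E + d) * ∫ x, Real.exp (-‖x‖) * f x := by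
  have h1 : ∀ x : E, Real.exp (-(s * ‖x‖)) * f x =
      (s⁻¹) ^ d * (Real.exp (-‖s • x‖) * f (s • x)) := by
    intro x
    rw [hf s x hs, norm_smul, Real.norm_eq_abs, abs_of_pos hs, inv_pow]
    have : s ^ d ≠ 0 := by positivity
    field_simp
  simp_rw [h1]
  rw [integral_const_mul]
  have h2 := Measure.integral_comp_smul (volume : Measure E)
    (fun y => Real.exp (-‖y‖) * f y) s
  rw [h2, smul_eq_mul, abs_of_nonneg (by positivity), pow_add, inv_pow]
  ring


theorem intexp {E : Type*} [NormedAddCommGroup E] [InnerProductSpace ℝ E] [FiniteDimensional ℝ E]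
    [MeasurableSpace E] [BorelSpace E] (k : ℕ) (s : ℝ) (hs : 0 < s) :
    Integrable (fun x : E => Real.exp (-(s * ‖x‖)) * ‖x‖ ^ k) := by
  set n : ℕ := Module.finrank ℝ E + 1 with hn
  set m : ℕ := k + n with hm
  set C : ℝ := (m.factorial : ℝ) / s ^ m * Real.exp s with hC
  have h1 : Integrable (fun x : E => C * (1 + ‖x‖) ^ (-(n : ℝ))) := by
    apply Integrable.const_mul
    apply integrable_one_add_norm
    rw [hn]; push_cast; linarith
  refine h1.mono' (by fun_prop) (Filter.Eventually.of_forall fun x => ?_)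
  have ht : 0 ≤ ‖x‖ := norm_nonneg x
  set t := ‖x‖ with htdef
  rw [Real.norm_of_nonneg (by positivity), Real.rpow_neg (by positivity), Real.rpow_natCast]
  have h2 := Real.pow_div_factorial_le_exp (s * (1 + t)) (by positivity) m
  have hsm : 0 < s ^ m := by positivity
  have hf : (0 : ℝ) < m.factorial := by positivity
  have h3 : (1 + t) ^ m ≤ C * Real.exp (s * t) := by
    rw [mul_pow, div_le_iff₀ hf, mul_add, mul_one, Real.exp_add] at h2
    rw [hC, div_mul_eq_mul_div, div_mul_eq_mul_div, le_div_iff₀ hsm]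
    nlinarith [h2]
  have h4 : t ^ k * (1 + t) ^ n ≤ (1 + t) ^ m := by
    have h5 : (1 + t) ^ m = (1 + t) ^ k * (1 + t) ^ n := pow_add (1 + t) k n
    have h6 : t ^ k ≤ (1 + t) ^ k := pow_le_pow_left₀ ht (by linarith) k
    rw [h5]
    exact mul_le_mul_of_nonneg_right h6 (by positivity)
  rw [Real.exp_neg, ← div_eq_mul_inv, le_div_iff₀ (by positivity), inv_mul_eq_div, div_mul_eq_mul_div,
    div_le_iff₀ (Real.exp_pos _)]
  exact h4.trans h3


theorem isotropy_unit {E : Type*} [NormedAddCommGroup E] [InnerProductSpace ℝ E]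
    [FiniteDimensional ℝ E] [MeasurableSpace E] [BorelSpace E] (m b : ℕ)
    (hE : Module.finrank ℝ E = m + 1) (e : E) (he : ‖e‖ = 1) :
    ∫ x : E, Real.exp (-‖x‖) * hb b e x = Acst m b := by
  have hv : Orthonormal ℝ (({0} : Set (Fin (m + 1))).domRestrict (fun _ => e)) := by
    constructor
    · intro i
      show ‖e‖ = 1
      exact he
    · intro i j hij
      exact absurd (Subsingleton.elim i j) hij
  obtain ⟨bs, hbs⟩ := hv.exists_orthonormalBasis_extension_of_card_eq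
    (by rw [hE, Fintype.card_fin])
  have hbs0 : bs 0 = e := hbs 0 rfl
  have hrep : bs.repr e = EuclideanSpace.single (0 : Fin (m + 1)) (1 : ℝ) := by
    rw [← hbs0, OrthonormalBasis.repr_self]
  have hmp := bs.measurePreserving_repr
  have hme : MeasurableEmbedding bs.repr := bs.repr.toHomeomorph.measurableEmbedding
  have h := hmp.integral_comp hme (fun y : EuclideanSpace ℝ (Fin (m + 1)) => Real.exp (-‖y‖) *
    hb b (EuclideanSpace.single (0 : Fin (m + 1)) (1 : ℝ)) y)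
  unfold Acst
  rw [← h]
  apply integral_congr_ae
  refine Filter.Eventually.of_forall fun x => ?_
  simp only
  have h1 : hb b (EuclideanSpace.single (0 : Fin (m + 1)) (1 : ℝ)) (bs.repr x) = hb b e x := by
    unfold hb
    rw [← hrep, LinearIsometryEquiv.inner_map_map, LinearIsometryEquiv.norm_map]
  rw [h1, LinearIsometryEquiv.norm_map]

theorem isotropy_hb_smul {E : Type*} [NormedAddCommGroup E] [InnerProductSpace ℝ E] (b : ℕ)
    (c : ℝ) (hc : 0 ≤ c) (e x : E) : hb b (c • e) x = c ^ (2 * b + 1) * hb b e x := by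
  unfold hb
  rw [inner_smul_right, abs_mul, abs_of_nonneg hc, mul_pow, mul_div_assoc, mul_pow]
  ring

theorem isotropy {E : Type*} [NormedAddCommGroup E] [InnerProductSpace ℝ E]
    [FiniteDimensional ℝ E] [MeasurableSpace E] [BorelSpace E] (m b : ℕ)
    (hE : Module.finrank ℝ E = m + 1) (θ : E) :
    ∫ x : E, Real.exp (-‖x‖) * hb b θ x = ‖θ‖ ^ (2 * b + 1) * Acst m b := by
  by_cases hθ : θ = 0
  · subst hθ
    have h0 : ∀ x : E, Real.exp (-‖x‖) * hb b 0 x = 0 := by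
      intro x
      simp [hb]
    simp [h0]
  · have hn : 0 < ‖θ‖ := norm_pos_iff.mpr hθ
    have h1 : ‖(‖θ‖⁻¹ • θ)‖ = 1 := by
      rw [norm_smul, norm_inv, norm_norm, inv_mul_cancel₀ hn.ne']
    have h2 : θ = ‖θ‖ • (‖θ‖⁻¹ • θ) := by
      rw [smul_smul, mul_inv_cancel₀ hn.ne', one_smul]
    have h3 : ∀ x : E, Real.exp (-‖x‖) * hb b θ x =
        ‖θ‖ ^ (2 * b + 1) * (Real.exp (-‖x‖) * hb b (‖θ‖⁻¹ • θ) x) := by
      intro x
      conv_lhs => rw [h2]
      rw [isotropy_hb_smul b ‖θ‖ hn.le]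
      ring
    simp only [h3]
    rw [integral_const_mul, isotropy_unit m b hE _ h1]


theorem cm_hb_nonneg {E : Type*} [NormedAddCommGroup E] [InnerProductSpace ℝ E] (b : ℕ) (θ x : E) :
    0 ≤ hb b θ x := by
  unfold hb; positivity

theorem ratio_le_one {E : Type*} [NormedAddCommGroup E] [InnerProductSpace ℝ E] (θ x : E)
    (hθ : ‖θ‖ = 1) : (inner ℝ x θ) ^ 2 / ‖x‖ ^ 2 ≤ 1 := by
  apply div_le_one_of_le₀ _ (by positivity)
  have h1 := abs_real_inner_le_norm x θ
  rw [hθ, mul_one] at h1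
  rw [← sq_abs]
  exact pow_le_pow_left₀ (abs_nonneg _) h1 2

theorem cm_hb_le {E : Type*} [NormedAddCommGroup E] [InnerProductSpace ℝ E] (b : ℕ) (θ x : E)
    (hθ : ‖θ‖ = 1) : hb b θ x ≤ ‖x‖ := by
  unfold hb
  have h1 := abs_real_inner_le_norm x θ
  rw [hθ, mul_one] at h1
  have h2 : ((inner ℝ x θ) ^ 2 / ‖x‖ ^ 2) ^ b ≤ 1 :=
    pow_le_one₀ (by positivity) (ratio_le_one θ x hθ)
  calc |inner ℝ x θ| * ((inner ℝ x θ) ^ 2 / ‖x‖ ^ 2) ^ b ≤ ‖x‖ * 1 := by
        apply mul_le_mul h1 h2 (by positivity) (norm_nonneg _)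
    _ = ‖x‖ := mul_one _

theorem cm_hb_meas {E : Type*} [NormedAddCommGroup E] [InnerProductSpace ℝ E]
    [FiniteDimensional ℝ E] [MeasurableSpace E] [BorelSpace E] (b : ℕ) (θ : E) :
    Measurable (fun x : E => hb b θ x) := by
  unfold hb
  have h1 : Measurable (fun x : E => (inner ℝ x θ : ℝ)) :=
    (continuous_id.inner continuous_const).measurable
  have h2 : Measurable (fun x : E => ‖x‖) := continuous_norm.measurable
  exact (h1.abs).mul (((h1.pow_const 2).div (h2.pow_const 2)).pow_const b)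

/-- damped bump -/
def gd {E : Type*} [NormedAddCommGroup E] [InnerProductSpace ℝ E] (n b : ℕ) (θ x : E) : ℝ :=
  |inner ℝ x θ| * (((inner ℝ x θ) ^ 2 / ‖x‖ ^ 2) /
    (1 + (1 - (inner ℝ x θ) ^ 2 / ‖x‖ ^ 2) / n)) ^ b

theorem gd_meas {E : Type*} [NormedAddCommGroup E] [InnerProductSpace ℝ E]
    [FiniteDimensional ℝ E] [MeasurableSpace E] [BorelSpace E] (n b : ℕ) (θ : E) :
    Measurable (fun x : E => gd n b θ x) := by
  unfold gd
  have h1 : Measurable (fun x : E => (inner ℝ x θ : ℝ)) :=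
    (continuous_id.inner continuous_const).measurable
  have h2 : Measurable (fun x : E => ‖x‖) := continuous_norm.measurable
  have h3 : Measurable (fun x : E => (inner ℝ x θ) ^ 2 / ‖x‖ ^ 2) :=
    (h1.pow_const 2).div (h2.pow_const 2)
  exact (h1.abs).mul ((h3.div (((h3.const_sub 1).div_const (n : ℝ)).const_add 1)).pow_const b)

theorem gd_nonneg {E : Type*} [NormedAddCommGroup E] [InnerProductSpace ℝ E] (n b : ℕ) (θ x : E)
    (hθ : ‖θ‖ = 1) : 0 ≤ gd n b θ x := by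
  unfold gd
  have h1 := ratio_le_one θ x hθ
  have h2 : 0 ≤ (1 - (inner ℝ x θ) ^ 2 / ‖x‖ ^ 2) / (n : ℝ) :=
    div_nonneg (by linarith) (Nat.cast_nonneg n)
  positivity

theorem gd_le_hb {E : Type*} [NormedAddCommGroup E] [InnerProductSpace ℝ E] (n b : ℕ) (θ x : E)
    (hθ : ‖θ‖ = 1) : gd n b θ x ≤ hb b θ x := by
  unfold gd hb
  have h1 := ratio_le_one θ x hθ
  have h2 : 0 ≤ (1 - (inner ℝ x θ) ^ 2 / ‖x‖ ^ 2) / (n : ℝ) :=
    div_nonneg (by linarith) (Nat.cast_nonneg n)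
  apply mul_le_mul_of_nonneg_left _ (abs_nonneg _)
  apply pow_le_pow_left₀ (by positivity)
  exact div_le_self (by positivity) (by linarith)

theorem gd_out {E : Type*} [NormedAddCommGroup E] [InnerProductSpace ℝ E] (n b R : ℕ)
    (hn : 1 ≤ n) (hR : 1 ≤ R) (hb' : 8 * n * R ^ 2 ≤ b) (θ x : E)
    (hx : ¬ ((1 - 1 / (2 * (R : ℝ) ^ 2)) * ‖x‖ ^ 2 ≤ (inner ℝ x θ) ^ 2)) :
    gd n b θ x ≤ (1 / 16) * hb b θ x := by
  push Not at hx
  have hx0 : 0 < ‖x‖ ^ 2 := by
    rcases eq_or_ne x 0 with rfl | h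
    · simp at hx
    · have := norm_pos_iff.2 h
      positivity
  set u : ℝ := (inner ℝ x θ) ^ 2 / ‖x‖ ^ 2 with hu
  have hu0 : 0 ≤ u := by positivity
  have hu1 : u < 1 - 1 / (2 * (R : ℝ) ^ 2) := by
    rw [hu, div_lt_iff₀ hx0]; exact hx
  have hRr : (0 : ℝ) < R := by exact_mod_cast hR
  have hnr : (0 : ℝ) < n := by exact_mod_cast hn
  have e1 : gd n b θ x = |inner ℝ x θ| * (u / (1 + (1 - u) / n)) ^ b := rfl
  have e2 : hb b θ x = |inner ℝ x θ| * u ^ b := rfl
  rw [e1, e2]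
  set a : ℝ := 1 / (2 * n * (R : ℝ) ^ 2) with ha
  have ha0 : 0 < a := by positivity
  have h3 : 1 + a ≤ 1 + (1 - u) / n := by
    have : a = (1 / (2 * (R : ℝ) ^ 2)) / n := by rw [ha]; field_simp
    rw [this]
    have h4 : 1 / (2 * (R : ℝ) ^ 2) ≤ 1 - u := by linarith
    have := div_le_div_of_nonneg_right h4 hnr.le
    linarith
  have h5 : (16 : ℝ) ≤ (1 + a) ^ b := by
    have h6 : (2 : ℝ) ≤ (1 + a) ^ (2 * n * R ^ 2) := by
      have h7 := one_add_mul_le_pow (a := a) (by linarith) (2 * n * R ^ 2)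
      have h8 : ((2 * n * R ^ 2 : ℕ) : ℝ) * a = 1 := by
        rw [ha]; push_cast; field_simp
      rw [h8] at h7
      linarith
    calc (16 : ℝ) = 2 ^ 4 := by norm_num
      _ ≤ ((1 + a) ^ (2 * n * R ^ 2)) ^ 4 := pow_le_pow_left₀ (by norm_num) h6 4
      _ = (1 + a) ^ (8 * n * R ^ 2) := by rw [← pow_mul]; congr 1; ring
      _ ≤ (1 + a) ^ b := pow_le_pow_right₀ (by linarith) hb'
  have h9 : (u / (1 + (1 - u) / n)) ^ b ≤ (1 / 16) * u ^ b := by
    have hpos : 0 < 1 + (1 - u) / n := by linarith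
    rw [div_pow, div_le_iff₀ (by positivity)]
    have h10 : (16 : ℝ) ≤ (1 + (1 - u) / n) ^ b :=
      h5.trans (pow_le_pow_left₀ (by positivity) h3 b)
    have h11 : 0 ≤ u ^ b := by positivity
    nlinarith
  calc |inner ℝ x θ| * (u / (1 + (1 - u) / n)) ^ b ≤ |inner ℝ x θ| * ((1 / 16) * u ^ b) :=
        mul_le_mul_of_nonneg_left h9 (abs_nonneg _)
    _ = (1 / 16) * (|inner ℝ x θ| * u ^ b) := by ring

theorem gd_hom {E : Type*} [NormedAddCommGroup E] [InnerProductSpace ℝ E] (n b : ℕ) (θ : E)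
    (r : ℝ) (x : E) (hr : 0 < r) : gd n b θ (r • x) = r ^ 1 * gd n b θ x := by
  unfold gd
  have h1 : (inner ℝ (r • x) θ : ℝ) = r * inner ℝ x θ := real_inner_smul_left _ _ _
  have h2 : ‖r • x‖ = r * ‖x‖ := by rw [norm_smul, Real.norm_of_nonneg hr.le]
  rw [h1, h2, abs_mul, abs_of_pos hr, mul_pow, mul_pow,
    mul_div_mul_left _ _ (pow_ne_zero 2 hr.ne'), pow_one]
  ring

theorem pt_bound {E : Type*} [NormedAddCommGroup E] [InnerProductSpace ℝ E] (n b : ℕ)
    (hn : 1 ≤ n) (θ x : E) (hθ : ‖θ‖ = 1) (l : ℝ) (hl : l = 1 / (2 * n)) :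
    Real.exp (-‖x - (l * inner ℝ x θ) • θ‖) * hb b θ (x - (l * inner ℝ x θ) • θ) ≤
      (1 - l) * (Real.exp (-((1 - l) * ‖x‖)) * gd n b θ x) := by
  have hnr : (1 : ℝ) ≤ n := by exact_mod_cast hn
  have hl0 : 0 < l := by rw [hl]; positivity
  have hl1 : l ≤ 1 / 2 := by
    rw [hl]
    exact one_div_le_one_div_of_le (by norm_num) (by linarith)
  have hθ2 : (inner ℝ θ θ : ℝ) = 1 := by rw [real_inner_self_eq_norm_sq, hθ]; norm_num
  set y := x - (l * inner ℝ x θ) • θ with hy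
  have h1 : (inner ℝ y θ : ℝ) = (1 - l) * inner ℝ x θ := by
    rw [hy, inner_sub_left, real_inner_smul_left, hθ2]; ring
  have h2 : ‖y‖ ^ 2 = ‖x‖ ^ 2 - (2 * l - l ^ 2) * (inner ℝ x θ) ^ 2 := by
    rw [hy, norm_sub_sq_real, real_inner_smul_right, norm_smul, hθ, mul_one, Real.norm_eq_abs,
      sq_abs]
    ring
  rcases eq_or_ne x 0 with hx | hx
  · have e1 : hb b θ y = 0 := by
      unfold hb
      rw [h1, hx]
      simp
    rw [e1, mul_zero]
    have := gd_nonneg n b θ x hθ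
    have h3 : 0 ≤ 1 - l := by linarith
    positivity
  have hx0 : 0 < ‖x‖ := norm_pos_iff.2 hx
  have hx2 : 0 < ‖x‖ ^ 2 := by positivity
  set u : ℝ := (inner ℝ x θ) ^ 2 / ‖x‖ ^ 2 with hu
  have hu0 : 0 ≤ u := by positivity
  have hu1 : u ≤ 1 := ratio_le_one θ x hθ
  have hxu : (inner ℝ x θ) ^ 2 = u * ‖x‖ ^ 2 := by
    rw [hu]; field_simp
  have h4 : ‖y‖ ^ 2 = ‖x‖ ^ 2 * ((1 - l) ^ 2 + (2 * l - l ^ 2) * (1 - u)) := by
    rw [h2, hxu]; ring
  have hln : l * (2 * n) = 1 := by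
    rw [hl]; field_simp
  have h5 : (1 - l) ^ 2 * (1 + (1 - u) / n) ≤ (1 - l) ^ 2 + (2 * l - l ^ 2) * (1 - u) := by
    have e1 : (1 - u) / n = 2 * l * (1 - u) := by
      rw [hl]; field_simp
    rw [e1]
    have h6 : (1 - l) ^ 2 * (2 * l) ≤ 2 * l - l ^ 2 := by nlinarith
    have h7 : 0 ≤ 1 - u := by linarith
    nlinarith
  have h8 : 0 < 1 + (1 - u) / n := by
    have : 0 ≤ (1 - u) / (n : ℝ) := div_nonneg (by linarith) (by positivity)
    linarith
  have h1l : 0 < 1 - l := by linarith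
  have hylow : ‖x‖ ^ 2 * ((1 - l) ^ 2 * (1 + (1 - u) / n)) ≤ ‖y‖ ^ 2 := by
    rw [h4]; exact mul_le_mul_of_nonneg_left h5 hx2.le
  have hynorm : (1 - l) * ‖x‖ ≤ ‖y‖ := by
    have h9 : ((1 - l) * ‖x‖) ^ 2 ≤ ‖y‖ ^ 2 := by
      refine le_trans ?_ hylow
      have : 0 ≤ (1 - u) / (n : ℝ) := div_nonneg (by linarith) (by positivity)
      have h10 : 0 ≤ ‖x‖ ^ 2 * (1 - l) ^ 2 := by positivity
      nlinarith
    exact le_of_sq_le_sq h9 (norm_nonneg _)
  have hyb : hb b θ y ≤ (1 - l) * gd n b θ x := by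
    have e1 : hb b θ y = |(inner ℝ y θ : ℝ)| * ((inner ℝ y θ) ^ 2 / ‖y‖ ^ 2) ^ b := rfl
    have e2 : gd n b θ x = |(inner ℝ x θ : ℝ)| * (u / (1 + (1 - u) / n)) ^ b := rfl
    rw [e1, e2, h1, abs_mul, abs_of_pos h1l, mul_assoc]
    apply mul_le_mul_of_nonneg_left _ h1l.le
    apply mul_le_mul_of_nonneg_left _ (abs_nonneg _)
    apply pow_le_pow_left₀ (by positivity)
    have hpos : 0 < ‖x‖ ^ 2 * ((1 - l) ^ 2 * (1 + (1 - u) / n)) := by positivity
    calc ((1 - l) * inner ℝ x θ) ^ 2 / ‖y‖ ^ 2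
        ≤ ((1 - l) * inner ℝ x θ) ^ 2 / (‖x‖ ^ 2 * ((1 - l) ^ 2 * (1 + (1 - u) / n))) :=
          div_le_div_of_nonneg_left (by positivity) hpos hylow
      _ = u / (1 + (1 - u) / n) := by
          rw [mul_pow, hxu]
          field_simp
  calc Real.exp (-‖y‖) * hb b θ y
      ≤ Real.exp (-((1 - l) * ‖x‖)) * ((1 - l) * gd n b θ x) := by
        apply mul_le_mul _ hyb (cm_hb_nonneg _ _ _) (Real.exp_pos _).le
        apply Real.exp_le_exp.2
        linarith
    _ = (1 - l) * (Real.exp (-((1 - l) * ‖x‖)) * gd n b θ x) := by ring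

theorem conemass {E : Type*} [NormedAddCommGroup E] [InnerProductSpace ℝ E]
    [FiniteDimensional ℝ E] [MeasurableSpace E] [BorelSpace E] (n b R : ℕ)
    (hE : Module.finrank ℝ E = n) (hn : 1 ≤ n) (hR : 1 ≤ R) (hb' : 8 * n * R ^ 2 ≤ b)
    (θ : E) (hθ : ‖θ‖ = 1) :
    (1 / 4) * ∫ x : E, Real.exp (-‖x‖) * hb b θ x ≤
      ∫ x in {x : E | (1 - 1 / (2 * (R : ℝ) ^ 2)) * ‖x‖ ^ 2 ≤ (inner ℝ x θ) ^ 2},
        Real.exp (-‖x‖) * hb b θ x := by
  set S : Set E := {x : E | (1 - 1 / (2 * (R : ℝ) ^ 2)) * ‖x‖ ^ 2 ≤ (inner ℝ x θ) ^ 2} with hS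
  have hSm : MeasurableSet S := by
    apply measurableSet_le
    · have h1 : Continuous (fun x : E => (1 - 1 / (2 * (R : ℝ) ^ 2)) * ‖x‖ ^ 2) :=
        continuous_const.mul (continuous_norm.pow 2)
      exact h1.measurable
    · have h1 : Continuous (fun x : E => (inner ℝ x θ : ℝ) ^ 2) :=
        (continuous_id.inner continuous_const).pow 2
      exact h1.measurable
  have hnr : (1 : ℝ) ≤ n := by exact_mod_cast hn
  obtain ⟨l, hl⟩ : ∃ l : ℝ, l = 1 / (2 * n) := ⟨_, rfl⟩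
  have hl0 : 0 < l := by rw [hl]; positivity
  have hl1 : l ≤ 1 / 2 := by
    rw [hl]
    exact one_div_le_one_div_of_le (by norm_num) (by linarith)
  have h1l : 0 < 1 - l := by linarith
  have hexpm : ∀ s : ℝ, Measurable (fun x : E => Real.exp (-(s * ‖x‖))) := fun s =>
    (Real.continuous_exp.comp ((continuous_norm.const_smul s).neg)).measurable
  -- integrability
  have hint : ∀ s : ℝ, 0 < s → Integrable (fun x : E => Real.exp (-(s * ‖x‖)) * hb b θ x) := by
    intro s hs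
    refine (intexp (E := E) 1 s hs).mono' ((hexpm s).mul (cm_hb_meas b θ)).aestronglyMeasurable ?_
    filter_upwards with x
    rw [Real.norm_of_nonneg (mul_nonneg (Real.exp_pos _).le (cm_hb_nonneg _ _ _)), pow_one]
    exact mul_le_mul_of_nonneg_left (cm_hb_le b θ x hθ) (Real.exp_pos _).le
  have hintg : ∀ s : ℝ, 0 < s → Integrable (fun x : E => Real.exp (-(s * ‖x‖)) * gd n b θ x) := by
    intro s hs
    refine (hint s hs).mono' ((hexpm s).mul (gd_meas n b θ)).aestronglyMeasurable ?_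
    filter_upwards with x
    rw [Real.norm_of_nonneg (mul_nonneg (Real.exp_pos _).le (gd_nonneg _ _ _ _ hθ))]
    exact mul_le_mul_of_nonneg_left (gd_le_hb n b θ x hθ) (Real.exp_pos _).le
  have hint1 : Integrable (fun x : E => Real.exp (-‖x‖) * hb b θ x) := by
    have := hint 1 one_pos
    simpa using this
  have hintg1 : Integrable (fun x : E => Real.exp (-‖x‖) * gd n b θ x) := by
    have := hintg 1 one_pos
    simpa using this
  -- the linear map
  let f : Module.Dual ℝ E := (innerₗ E) θ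
  let T : E →ₗ[ℝ] E := LinearMap.transvection f (-(l • θ))
  have hf : ∀ x, f x = inner ℝ x θ := fun x => real_inner_comm _ _
  have hT : ∀ x, T x = x - (l * inner ℝ x θ) • θ := by
    intro x
    rw [LinearMap.transvection.apply, hf, smul_neg, smul_smul, mul_comm, sub_eq_add_neg]
  have hdet : LinearMap.det T = 1 - l := by
    rw [LinearMap.transvection.det, map_neg, map_smul, hf, real_inner_self_eq_norm_sq, hθ]
    simp only [smul_eq_mul]; ring
  have hTc : Continuous T := T.continuous_of_finiteDimensional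
  have hmap := Measure.map_linearMap_addHaar_eq_smul_addHaar (volume : Measure E) (f := T)
    (by rw [hdet]; exact h1l.ne')
  rw [hdet] at hmap
  have hFm : Measurable (fun x : E => Real.exp (-‖x‖) * hb b θ x) := by
    have h1 : Measurable (fun x : E => Real.exp (-(1 * ‖x‖)) * hb b θ x) :=
      (hexpm 1).mul (cm_hb_meas b θ)
    simpa using h1
  set A := ∫ x : E, Real.exp (-‖x‖) * hb b θ x with hA
  have hcv : ∫ x : E, Real.exp (-‖T x‖) * hb b θ (T x) = (1 - l)⁻¹ * A := by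
    have h1 := integral_map (μ := (volume : Measure E)) (φ := T)
      (f := fun x : E => Real.exp (-‖x‖) * hb b θ x) hTc.measurable.aemeasurable
      hFm.aestronglyMeasurable
    rw [← h1, hmap, integral_smul_measure, ENNReal.toReal_ofReal (abs_nonneg _),
      abs_of_pos (inv_pos.2 h1l), smul_eq_mul]
  have hcvint : Integrable (fun x : E => Real.exp (-‖T x‖) * hb b θ (T x)) := by
    have h1 : Integrable (fun x : E => Real.exp (-‖x‖) * hb b θ x) (Measure.map T volume) := by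
      rw [hmap]
      exact hint1.smul_measure ENNReal.ofReal_ne_top
    exact (integrable_map_measure hFm.aestronglyMeasurable hTc.measurable.aemeasurable).1 h1
  -- main inequality
  have hmain : (1 - l)⁻¹ * A ≤ (1 - l) * (((1 - l)⁻¹) ^ (n + 1) *
      ∫ x : E, Real.exp (-‖x‖) * gd n b θ x) := by
    rw [← hcv]
    have h1 : ∫ x : E, Real.exp (-‖T x‖) * hb b θ (T x) ≤
        ∫ x : E, (1 - l) * (Real.exp (-((1 - l) * ‖x‖)) * gd n b θ x) := by
      apply integral_mono hcvint ((hintg (1 - l) h1l).const_mul _)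
      intro x
      have := pt_bound n b hn θ x hθ l hl
      simp only [hT]
      exact this
    rw [integral_const_mul, scale (fun x => gd n b θ x) 1 (fun r x hr => gd_hom n b θ r x hr)
      (1 - l) h1l, hE] at h1
    exact h1
  set G := ∫ x : E, Real.exp (-‖x‖) * gd n b θ x with hG
  have hAG : A / 2 ≤ G := by
    have h1 : (1 - l) ^ (n - 1) * A ≤ G := by
      have e1 : (1 - l) * (((1 - l)⁻¹) ^ (n + 1) * G) = (1 - l)⁻¹ * ((1 - l)⁻¹ ^ (n - 1) * G) := by
        have : n + 1 = (n - 1) + 2 := by omega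
        rw [this, pow_add]
        field_simp
      rw [e1] at hmain
      have h2 : A ≤ (1 - l)⁻¹ ^ (n - 1) * G := le_of_mul_le_mul_left hmain (inv_pos.2 h1l)
      rw [inv_pow] at h2
      have h3 : 0 < (1 - l) ^ (n - 1) := by positivity
      calc (1 - l) ^ (n - 1) * A ≤ (1 - l) ^ (n - 1) * (((1 - l) ^ (n - 1))⁻¹ * G) :=
            mul_le_mul_of_nonneg_left h2 h3.le
        _ = G := by field_simp
    have hA0 : 0 ≤ A := integral_nonneg fun x => mul_nonneg (Real.exp_pos _).le (cm_hb_nonneg _ _ _)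
    have h4 : (1 : ℝ) / 2 ≤ (1 - l) ^ (n - 1) := by
      have h5 := one_add_mul_le_pow (a := -l) (by linarith) (n - 1)
      have h6 : ((n - 1 : ℕ) : ℝ) * l ≤ 1 / 2 := by
        have h7 : ((n - 1 : ℕ) : ℝ) ≤ n := by exact_mod_cast Nat.sub_le n 1
        calc ((n - 1 : ℕ) : ℝ) * l ≤ n * l := mul_le_mul_of_nonneg_right h7 hl0.le
          _ = 1 / 2 := by rw [hl]; field_simp
      rw [← sub_eq_add_neg] at h5
      linarith
    nlinarith
  -- split
  have hsplit : G ≤ (∫ x in S, Real.exp (-‖x‖) * hb b θ x) + (1 / 16) * A := by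
    rw [hG, hA, ← integral_indicator hSm, ← integral_const_mul, ← integral_add
      (hint1.indicator hSm) (hint1.const_mul _)]
    apply integral_mono hintg1 ((hint1.indicator hSm).add (hint1.const_mul _))
    intro x
    have hpos : 0 ≤ Real.exp (-‖x‖) * hb b θ x :=
      mul_nonneg (Real.exp_pos _).le (cm_hb_nonneg _ _ _)
    by_cases hx : x ∈ S
    · simp only [Pi.add_apply, indicator_of_mem hx]
      have := mul_le_mul_of_nonneg_left (gd_le_hb n b θ x hθ) (Real.exp_pos (-‖x‖)).le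
      linarith
    · simp only [Pi.add_apply, indicator_of_notMem hx]
      have := mul_le_mul_of_nonneg_left (gd_out n b R hn hR hb' θ x hx) (Real.exp_pos (-‖x‖)).le
      linarith
  have hA0 : 0 ≤ A := integral_nonneg fun x => mul_nonneg (Real.exp_pos _).le (cm_hb_nonneg _ _ _)
  linarith


theorem hb_nonneg' {E : Type*} [NormedAddCommGroup E] [InnerProductSpace ℝ E] (b : ℕ) (θ x : E) :
    0 ≤ hb b θ x := by
  unfold hb
  positivity

theorem hb_le_norm' {E : Type*} [NormedAddCommGroup E] [InnerProductSpace ℝ E] (b : ℕ) (θ x : E)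
    (hθ : ‖θ‖ = 1) : hb b θ x ≤ ‖x‖ := by
  unfold hb
  have h1 : |inner ℝ x θ| ≤ ‖x‖ := by
    have := abs_real_inner_le_norm x θ
    rwa [hθ, mul_one] at this
  have h2 : (inner ℝ x θ) ^ 2 / ‖x‖ ^ 2 ≤ 1 := by
    apply div_le_one_of_le₀ _ (by positivity)
    rw [← sq_abs (inner ℝ x θ)]
    exact pow_le_pow_left₀ (abs_nonneg _) h1 2
  have h3 : ((inner ℝ x θ) ^ 2 / ‖x‖ ^ 2) ^ b ≤ 1 := pow_le_one₀ (by positivity) h2
  calc |inner ℝ x θ| * ((inner ℝ x θ) ^ 2 / ‖x‖ ^ 2) ^ b ≤ ‖x‖ * 1 :=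
        mul_le_mul h1 h3 (by positivity) (norm_nonneg _)
    _ = ‖x‖ := mul_one _


theorem Acst_pos (m b : ℕ) : 0 < Acst m b := by
  unfold Acst
  set e : EuclideanSpace ℝ (Fin (m + 1)) := EuclideanSpace.single (0 : Fin (m + 1)) (1 : ℝ) with he
  have hen : ‖e‖ = 1 := by
    rw [he, EuclideanSpace.norm_single, norm_one]
  have hnn : ∀ x : EuclideanSpace ℝ (Fin (m + 1)), 0 ≤ Real.exp (-‖x‖) * hb b e x := fun x =>
    mul_nonneg (Real.exp_nonneg _) (hb_nonneg' _ _ _)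
  have hmeas : Measurable fun x : EuclideanSpace ℝ (Fin (m + 1)) =>
      Real.exp (-‖x‖) * hb b e x := by
    unfold hb
    have h1 : Measurable fun x : EuclideanSpace ℝ (Fin (m + 1)) => inner ℝ x e :=
      (continuous_id.inner continuous_const).measurable
    have h2 : Measurable fun x : EuclideanSpace ℝ (Fin (m + 1)) => ‖x‖ := measurable_norm
    exact (Real.measurable_exp.comp h2.neg).mul
      ((continuous_abs.measurable.comp h1).mul (((h1.pow_const 2).div (h2.pow_const 2)).pow_const b))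
  have hint : Integrable fun x : EuclideanSpace ℝ (Fin (m + 1)) =>
      Real.exp (-‖x‖) * hb b e x := by
    refine (intexp (E := EuclideanSpace ℝ (Fin (m + 1))) 1 1 one_pos).mono'
      hmeas.aestronglyMeasurable ?_
    refine Filter.Eventually.of_forall fun x => ?_
    rw [Real.norm_of_nonneg (hnn x), one_mul, pow_one]
    exact mul_le_mul_of_nonneg_left (hb_le_norm' b e x hen) (Real.exp_nonneg _)
  rw [integral_pos_iff_support_of_nonneg hnn hint]
  refine lt_of_lt_of_le (Metric.measure_ball_pos volume e (show (0:ℝ) < 1 / 2 by norm_num))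
    (measure_mono ?_)
  intro x hx
  rw [Metric.mem_ball, dist_eq_norm] at hx
  have hin : inner ℝ x e = x 0 := by
    rw [he]
    simp [EuclideanSpace.inner_single_right]
  have h1 : |x 0 - 1| < 1 / 2 := by
    have h2 : ‖(x - e) 0‖ ≤ ‖x - e‖ := PiLp.norm_apply_le (x - e) 0
    have h3 : (x - e) 0 = x 0 - 1 := by
      rw [he]
      simp
    rw [h3, Real.norm_eq_abs] at h2
    linarith
  have h4 : x 0 ≠ 0 := by
    intro h
    rw [h] at h1
    norm_num at h1
  have hx0 : x ≠ 0 := by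
    rintro rfl
    exact h4 rfl
  rw [Function.mem_support]
  unfold hb
  rw [hin]
  have h5 : ‖x‖ ≠ 0 := norm_ne_zero_iff.2 hx0
  exact mul_ne_zero (Real.exp_ne_zero _) (mul_ne_zero (abs_ne_zero.2 h4)
    (pow_ne_zero _ (div_ne_zero (pow_ne_zero _ h4) (pow_ne_zero _ h5))))


theorem Acomp_split (m : ℕ) : ∃ e : (ℝ × EuclideanSpace ℝ (Fin (m + 1))) ≃ᵐ
      EuclideanSpace ℝ (Fin (m + 2)),
    MeasurePreserving e volume volume ∧
    (∀ z y, (e (z, y)) 0 = y 0) ∧ (∀ z y, ‖e (z, y)‖ ^ 2 = ‖y‖ ^ 2 + z ^ 2) := by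
  let e1 : (ℝ × EuclideanSpace ℝ (Fin (m + 1))) ≃ᵐ (ℝ × (Fin (m + 1) → ℝ)) :=
    (MeasurableEquiv.refl ℝ).prodCongr (MeasurableEquiv.toLp 2 (Fin (m + 1) → ℝ)).symm
  let e2 : (ℝ × (Fin (m + 1) → ℝ)) ≃ᵐ (Fin (m + 2) → ℝ) :=
    (MeasurableEquiv.piFinSuccAbove (fun _ : Fin (m + 2) => ℝ) (Fin.last (m + 1))).symm
  let e3 : (Fin (m + 2) → ℝ) ≃ᵐ EuclideanSpace ℝ (Fin (m + 2)) :=
    MeasurableEquiv.toLp 2 (Fin (m + 2) → ℝ)
  have h1 : MeasurePreserving e1 volume volume :=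
    (MeasurePreserving.id volume).prod
      (EuclideanSpace.volume_preserving_symm_measurableEquiv_toLp (Fin (m + 1)))
  have h2 : MeasurePreserving e2 volume volume :=
    (volume_preserving_piFinSuccAbove (fun _ : Fin (m + 2) => ℝ) (Fin.last (m + 1))).symm _
  have h3 : MeasurePreserving e3 volume volume :=
    (EuclideanSpace.volume_preserving_symm_measurableEquiv_toLp (Fin (m + 2))).symm _
  refine ⟨(e1.trans e2).trans e3, (h1.trans h2).trans h3, ?_, ?_⟩
  · intro z y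
    change (Fin.insertNth (α := fun _ => ℝ) (Fin.last (m + 1)) z (WithLp.ofLp y)) 0 = y 0
    have : (0 : Fin (m + 2)) = (Fin.last (m + 1)).succAbove 0 := by
      simp
    rw [this, Fin.insertNth_apply_succAbove]
  · intro z y
    rw [EuclideanSpace.norm_sq_eq, EuclideanSpace.norm_sq_eq, Fin.sum_univ_castSucc]
    have hc : ∀ i : Fin (m + 1), (((e1.trans e2).trans e3) (z, y)) i.castSucc = y i := by
      intro i
      change (Fin.insertNth (α := fun _ => ℝ) (Fin.last (m + 1)) z (WithLp.ofLp y)) i.castSucc = y i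
      have : (i.castSucc : Fin (m + 2)) = (Fin.last (m + 1)).succAbove i := by
        simp
      rw [this, Fin.insertNth_apply_succAbove]
    have hl : (((e1.trans e2).trans e3) (z, y)) (Fin.last (m + 1)) = z := by
      change (Fin.insertNth (α := fun _ => ℝ) (Fin.last (m + 1)) z (WithLp.ofLp y)) (Fin.last (m + 1)) = z
      simp
    rw [hl]
    simp only [hc]
    simp


theorem Acomp_hb (m b : ℕ) (y : EuclideanSpace ℝ (Fin (m + 1))) :
    hb b (EuclideanSpace.single (0 : Fin (m + 1)) (1 : ℝ)) y =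
      |y 0| * ((y 0) ^ 2 / ‖y‖ ^ 2) ^ b := by
  unfold hb
  rw [EuclideanSpace.inner_single_right]
  simp

theorem Acomp_abs_le (m : ℕ) (y : EuclideanSpace ℝ (Fin (m + 1))) : |y 0| ≤ ‖y‖ := by
  have := PiLp.norm_apply_le y (0 : Fin (m + 1))
  simpa using this

theorem Acomp_nonneg (m b : ℕ) (y : EuclideanSpace ℝ (Fin (m + 1))) :
    0 ≤ hb b (EuclideanSpace.single (0 : Fin (m + 1)) (1 : ℝ)) y := by
  rw [Acomp_hb]; positivity

theorem Acomp_le (m b : ℕ) (y : EuclideanSpace ℝ (Fin (m + 1))) :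
    hb b (EuclideanSpace.single (0 : Fin (m + 1)) (1 : ℝ)) y ≤ ‖y‖ := by
  rw [Acomp_hb]
  have h1 := Acomp_abs_le m y
  have h2 : (y 0) ^ 2 / ‖y‖ ^ 2 ≤ 1 := by
    apply div_le_one_of_le₀ _ (by positivity)
    rw [← sq_abs (y 0)]
    exact pow_le_pow_left₀ (abs_nonneg _) h1 2
  have h3 : ((y 0) ^ 2 / ‖y‖ ^ 2) ^ b ≤ 1 := pow_le_one₀ (by positivity) h2
  calc |y 0| * ((y 0) ^ 2 / ‖y‖ ^ 2) ^ b ≤ ‖y‖ * 1 := by
        apply mul_le_mul h1 h3 (by positivity) (by positivity)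
    _ = ‖y‖ := mul_one _

theorem Acomp_meas (m b : ℕ) :
    Measurable (fun y => hb b (EuclideanSpace.single (0 : Fin (m + 1)) (1 : ℝ)) y) := by
  unfold hb
  fun_prop

theorem Acomp_hom (m b : ℕ) (r : ℝ) (y : EuclideanSpace ℝ (Fin (m + 1))) (hr : 0 < r) :
    hb b (EuclideanSpace.single (0 : Fin (m + 1)) (1 : ℝ)) (r • y) =
      r * hb b (EuclideanSpace.single (0 : Fin (m + 1)) (1 : ℝ)) y := by
  rw [Acomp_hb, Acomp_hb]
  have h0 : (r • y) 0 = r * y 0 := by simp
  rw [h0, norm_smul, Real.norm_eq_abs, abs_mul, abs_of_pos hr, mul_pow, mul_pow,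
    mul_div_mul_left _ _ (by positivity)]
  ring

theorem Acomp_e3 (b : ℕ) (hb0 : 0 < b) : (1 + 1 / (b : ℝ)) ^ b ≤ 3 := by
  have hbr : (0 : ℝ) < b := by exact_mod_cast hb0
  have h1 : 1 + 1 / (b : ℝ) ≤ Real.exp (1 / b) := by
    have := Real.add_one_le_exp (1 / (b : ℝ)); linarith
  calc (1 + 1 / (b : ℝ)) ^ b ≤ (Real.exp (1 / b)) ^ b :=
        pow_le_pow_left₀ (by positivity) h1 b
    _ = Real.exp 1 := by
        rw [← Real.exp_nat_mul]; congr 1; field_simp
    _ ≤ 3 := by have := Real.exp_one_lt_d9; linarith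

theorem Acomp_pt (m b : ℕ) (hb0 : 0 < b) (y : EuclideanSpace ℝ (Fin (m + 1)))
    (x : EuclideanSpace ℝ (Fin (m + 2))) (z : ℝ) (hx0 : x 0 = y 0)
    (hx : ‖x‖ ^ 2 = ‖y‖ ^ 2 + z ^ 2) (hz : |z| ≤ ‖y‖ / √b) :
    (1 / 3) * (Real.exp (-((1 + 1 / (2 * b)) * ‖y‖)) *
      hb b (EuclideanSpace.single (0 : Fin (m + 1)) (1 : ℝ)) y) ≤
    Real.exp (-‖x‖) * hb b (EuclideanSpace.single (0 : Fin (m + 2)) (1 : ℝ)) x := by
  have hbr : (0 : ℝ) < b := by exact_mod_cast hb0
  rcases eq_or_lt_of_le (norm_nonneg y) with hy | hy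
  · have hy' : y = 0 := norm_eq_zero.mp hy.symm
    have h0 : hb b (EuclideanSpace.single (0 : Fin (m + 1)) (1 : ℝ)) y = 0 := by
      rw [Acomp_hb, hy']; simp
    rw [h0]
    have := Acomp_nonneg (m + 1) b x
    have h2 := Real.exp_pos (-‖x‖)
    simp only [mul_zero]
    positivity
  · have hz2 : z ^ 2 ≤ ‖y‖ ^ 2 / b := by
      rw [← sq_abs z]
      calc |z| ^ 2 ≤ (‖y‖ / √b) ^ 2 := pow_le_pow_left₀ (abs_nonneg _) hz 2
        _ = ‖y‖ ^ 2 / b := by rw [div_pow, Real.sq_sqrt hbr.le]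
    have hx2 : ‖x‖ ^ 2 ≤ ‖y‖ ^ 2 * (1 + 1 / b) := by
      rw [hx]
      calc ‖y‖ ^ 2 + z ^ 2 ≤ ‖y‖ ^ 2 + ‖y‖ ^ 2 / b := by linarith
        _ = _ := by ring
    have hxn : ‖x‖ ≤ (1 + 1 / (2 * b)) * ‖y‖ := by
      apply le_of_sq_le_sq _ (by positivity)
      refine hx2.trans ?_
      have : (1 + 1 / (b : ℝ)) ≤ (1 + 1 / (2 * b)) ^ 2 := by
        have : (1 + 1 / (2 * (b : ℝ))) ^ 2 = 1 + 1 / b + (1 / (2 * b)) ^ 2 := by
          field_simp; ring
        rw [this]
        have : 0 ≤ (1 / (2 * (b : ℝ))) ^ 2 := by positivity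
        linarith
      calc ‖y‖ ^ 2 * (1 + 1 / b) ≤ ‖y‖ ^ 2 * (1 + 1 / (2 * b)) ^ 2 :=
            mul_le_mul_of_nonneg_left this (by positivity)
        _ = _ := by ring
    have hexp : Real.exp (-((1 + 1 / (2 * b)) * ‖y‖)) ≤ Real.exp (-‖x‖) :=
      Real.exp_le_exp.mpr (by linarith)
    have hxpos : 0 < ‖x‖ ^ 2 := by rw [hx]; positivity
    have hh : (1 / 3) * hb b (EuclideanSpace.single (0 : Fin (m + 1)) (1 : ℝ)) y ≤
        hb b (EuclideanSpace.single (0 : Fin (m + 2)) (1 : ℝ)) x := by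
      rw [Acomp_hb, Acomp_hb (m + 1) b x, hx0]
      have h1 : (y 0) ^ 2 / (‖y‖ ^ 2 * (1 + 1 / b)) ≤ (y 0) ^ 2 / ‖x‖ ^ 2 :=
        div_le_div_of_nonneg_left (by positivity) hxpos hx2
      have h2 : ((y 0) ^ 2 / (‖y‖ ^ 2 * (1 + 1 / b))) ^ b ≤ ((y 0) ^ 2 / ‖x‖ ^ 2) ^ b :=
        pow_le_pow_left₀ (by positivity) h1 b
      have h3 : ((y 0) ^ 2 / (‖y‖ ^ 2 * (1 + 1 / b))) ^ b =
          ((y 0) ^ 2 / ‖y‖ ^ 2) ^ b / (1 + 1 / (b : ℝ)) ^ b := by
        rw [← div_pow, div_div]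
      have h4 : (1 / 3) * ((y 0) ^ 2 / ‖y‖ ^ 2) ^ b ≤
          ((y 0) ^ 2 / ‖y‖ ^ 2) ^ b / (1 + 1 / (b : ℝ)) ^ b := by
        rw [one_div_mul_eq_div]
        exact div_le_div_of_nonneg_left (by positivity) (by positivity) (Acomp_e3 b hb0)
      calc (1 / 3) * (|y 0| * ((y 0) ^ 2 / ‖y‖ ^ 2) ^ b) =
          |y 0| * ((1 / 3) * ((y 0) ^ 2 / ‖y‖ ^ 2) ^ b) := by ring
        _ ≤ |y 0| * ((y 0) ^ 2 / ‖x‖ ^ 2) ^ b := by
            apply mul_le_mul_of_nonneg_left _ (abs_nonneg _)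
            exact h4.trans (h3 ▸ h2)
    calc (1 / 3) * (Real.exp (-((1 + 1 / (2 * b)) * ‖y‖)) *
          hb b (EuclideanSpace.single (0 : Fin (m + 1)) (1 : ℝ)) y) =
          Real.exp (-((1 + 1 / (2 * b)) * ‖y‖)) * ((1 / 3) *
          hb b (EuclideanSpace.single (0 : Fin (m + 1)) (1 : ℝ)) y) := by ring
      _ ≤ _ := by
          apply mul_le_mul hexp hh _ (Real.exp_pos _).le
          have := Acomp_nonneg m b y
          positivity


theorem Acomp_int1 (m b : ℕ) (s : ℝ) (hs : 0 < s) :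
    Integrable (fun y : EuclideanSpace ℝ (Fin (m + 1)) => Real.exp (-(s * ‖y‖)) *
      hb b (EuclideanSpace.single (0 : Fin (m + 1)) (1 : ℝ)) y) := by
  refine (intexp (E := EuclideanSpace ℝ (Fin (m + 1))) 1 s hs).mono' ?_ ?_
  · apply Measurable.aestronglyMeasurable
    have := Acomp_meas m b
    fun_prop
  · refine Filter.Eventually.of_forall fun y => ?_
    rw [Real.norm_eq_abs, abs_mul, abs_of_pos (Real.exp_pos _), abs_of_nonneg (Acomp_nonneg m b y),
      pow_one]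
    exact mul_le_mul_of_nonneg_left (Acomp_le m b y) (Real.exp_pos _).le

theorem Acomp_int2 (m b : ℕ) (s : ℝ) (hs : 0 < s) :
    Integrable (fun y : EuclideanSpace ℝ (Fin (m + 1)) => Real.exp (-(s * ‖y‖)) *
      (‖y‖ * hb b (EuclideanSpace.single (0 : Fin (m + 1)) (1 : ℝ)) y)) := by
  refine (intexp (E := EuclideanSpace ℝ (Fin (m + 1))) 2 s hs).mono' ?_ ?_
  · apply Measurable.aestronglyMeasurable
    have := Acomp_meas m b
    fun_prop
  · refine Filter.Eventually.of_forall fun y => ?_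
    have h0 := Acomp_nonneg m b y
    rw [Real.norm_eq_abs, abs_mul, abs_of_pos (Real.exp_pos _),
      abs_of_nonneg (by positivity : 0 ≤ ‖y‖ * _), sq]
    exact mul_le_mul_of_nonneg_left (mul_le_mul_of_nonneg_left (Acomp_le m b y) (norm_nonneg _))
      (Real.exp_pos _).le

/-- first moment bound -/
theorem Acomp_moment (m b : ℕ) :
    ((m : ℝ) + 2) / 2 * Acst m b ≤ ∫ y : EuclideanSpace ℝ (Fin (m + 1)), Real.exp (-‖y‖) *
      (‖y‖ * hb b (EuclideanSpace.single (0 : Fin (m + 1)) (1 : ℝ)) y) := by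
  set n : ℝ := (m : ℝ) + 2 with hn
  have hn0 : 0 < n := by positivity
  set h : EuclideanSpace ℝ (Fin (m + 1)) → ℝ :=
    fun y => hb b (EuclideanSpace.single (0 : Fin (m + 1)) (1 : ℝ)) y with hh
  have hnn : ∀ y, 0 ≤ h y := fun y => Acomp_nonneg m b y
  have hA0 : 0 ≤ Acst m b := integral_nonneg fun y => mul_nonneg (Real.exp_pos _).le (hnn y)
  have hsc := scale h 1 (fun r y hr => by rw [pow_one]; exact Acomp_hom m b r y hr)
    (1 + 1 / n) (by positivity)
  have hfr : Module.finrank ℝ (EuclideanSpace ℝ (Fin (m + 1))) = m + 1 := by simp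
  rw [hfr] at hsc
  have hA : ∫ x, Real.exp (-‖x‖) * h x = Acst m b := rfl
  rw [hA] at hsc
  -- upper bound of the left-hand side
  have h1 : ((1 + 1 / n)⁻¹) ^ (m + 1 + 1) ≤ 1 / 2 := by
    rw [inv_pow, show (1 / 2 : ℝ) = 2⁻¹ by norm_num]
    apply inv_anti₀ (by norm_num)
    have hB := one_add_mul_le_pow (a := 1 / n) (by have : 0 < 1 / n := by positivity
                                                   linarith) (m + 1 + 1)
    have : ((m + 1 + 1 : ℕ) : ℝ) * (1 / n) = 1 := by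
      rw [hn]; push_cast; field_simp; ring
    linarith
  have h2 : ∫ x, Real.exp (-((1 + 1 / n) * ‖x‖)) * h x ≤ 1 / 2 * Acst m b := by
    rw [hsc]; exact mul_le_mul_of_nonneg_right h1 hA0
  have i1 := Acomp_int1 m b (1 + 1 / n) (by positivity)
  have i2 := Acomp_int1 m b 1 one_pos
  have i3 := Acomp_int2 m b 1 one_pos
  simp only [one_mul] at i2 i3
  have h3 : ∫ x, (Real.exp (-‖x‖) * h x - (1 / n) * (Real.exp (-‖x‖) * (‖x‖ * h x))) ≤
      ∫ x, Real.exp (-((1 + 1 / n) * ‖x‖)) * h x := by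
    apply integral_mono (i2.sub (i3.const_mul _)) i1
    intro x
    have e1 : Real.exp (-((1 + 1 / n) * ‖x‖)) = Real.exp (-‖x‖) * Real.exp (-(‖x‖ / n)) := by
      rw [← Real.exp_add]; congr 1; ring
    have e2 : 1 - ‖x‖ / n ≤ Real.exp (-(‖x‖ / n)) := by
      have := Real.add_one_le_exp (-(‖x‖ / n)); linarith
    change Real.exp (-‖x‖) * h x - (1 / n) * (Real.exp (-‖x‖) * (‖x‖ * h x)) ≤
      Real.exp (-((1 + 1 / n) * ‖x‖)) * h x
    rw [e1]
    have e3 : 0 ≤ Real.exp (-‖x‖) * h x := mul_nonneg (Real.exp_pos _).le (hnn x)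
    have := mul_le_mul_of_nonneg_left e2 e3
    calc _ = Real.exp (-‖x‖) * h x * (1 - ‖x‖ / n) := by ring
      _ ≤ _ := this
      _ = _ := by ring
  rw [integral_sub i2 (i3.const_mul _), integral_const_mul] at h3
  have hA' : ∫ x, Real.exp (-‖x‖) * h x = Acst m b := rfl
  rw [hA'] at h3
  have h4 : 1 / 2 * Acst m b ≤ 1 / n * ∫ x, Real.exp (-‖x‖) * (‖x‖ * h x) := by linarith
  have h5 := mul_le_mul_of_nonneg_left h4 hn0.le
  calc n / 2 * Acst m b = n * (1 / 2 * Acst m b) := by ring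
    _ ≤ n * (1 / n * ∫ x, Real.exp (-‖x‖) * (‖x‖ * h x)) := h5
    _ = ∫ x, Real.exp (-‖x‖) * (‖x‖ * h x) := by field_simp

theorem Acomp_prod (m b : ℕ) (hb0 : 0 < b) :
    2 / (3 * √b) * ∫ y : EuclideanSpace ℝ (Fin (m + 1)),
      Real.exp (-((1 + 1 / (2 * b)) * ‖y‖)) *
      (‖y‖ * hb b (EuclideanSpace.single (0 : Fin (m + 1)) (1 : ℝ)) y) ≤ Acst (m + 1) b := by
  have hbr : (0 : ℝ) < b := by exact_mod_cast hb0
  obtain ⟨e, he, he0, hen⟩ := Acomp_split m
  set h : EuclideanSpace ℝ (Fin (m + 1)) → ℝ :=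
    fun y => hb b (EuclideanSpace.single (0 : Fin (m + 1)) (1 : ℝ)) y with hh
  have hnn : ∀ y, 0 ≤ h y := fun y => Acomp_nonneg m b y
  have hmeas : Measurable h := Acomp_meas m b
  set F : EuclideanSpace ℝ (Fin (m + 2)) → ℝ := fun x => Real.exp (-‖x‖) *
    hb b (EuclideanSpace.single (0 : Fin (m + 2)) (1 : ℝ)) x with hF
  have hFi : Integrable F := by
    have := Acomp_int1 (m + 1) b 1 one_pos
    simpa only [one_mul] using this
  have hA : Acst (m + 1) b = ∫ p : ℝ × EuclideanSpace ℝ (Fin (m + 1)), F (e p) := by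
    rw [he.integral_comp e.measurableEmbedding F]; rfl
  have hFe : Integrable (fun p : ℝ × EuclideanSpace ℝ (Fin (m + 1)) => F (e p)) :=
    (he.integrable_comp_emb e.measurableEmbedding).mpr hFi
  set g : EuclideanSpace ℝ (Fin (m + 1)) → ℝ := fun y =>
    (1 / 3) * (Real.exp (-((1 + 1 / (2 * b)) * ‖y‖)) * h y) with hg
  have hgm : Measurable g := by fun_prop
  have hgn : ∀ y, 0 ≤ g y := fun y => by have := hnn y; positivity
  set S : Set (ℝ × EuclideanSpace ℝ (Fin (m + 1))) := {p | |p.1| ≤ ‖p.2‖ / √b} with hS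
  have hSm : MeasurableSet S := by
    apply measurableSet_le
    · fun_prop
    · fun_prop
  set G : ℝ × EuclideanSpace ℝ (Fin (m + 1)) → ℝ := S.indicator (fun p => g p.2) with hG
  have hGF : ∀ p, G p ≤ F (e p) := by
    intro p
    by_cases hp : p ∈ S
    · rw [hG, indicator_of_mem hp]
      exact Acomp_pt m b hb0 p.2 (e p) p.1 (he0 p.1 p.2) (hen p.1 p.2) hp
    · rw [hG, indicator_of_notMem hp]
      exact mul_nonneg (Real.exp_pos _).le (Acomp_nonneg (m + 1) b _)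
  have hGn : ∀ p, 0 ≤ G p := fun p => indicator_nonneg (fun q _ => hgn q.2) p
  have hGi : Integrable G := by
    refine hFe.mono' ?_ (Filter.Eventually.of_forall fun p => ?_)
    · exact ((hgm.comp measurable_snd).indicator hSm).aestronglyMeasurable
    · rw [Real.norm_eq_abs, abs_of_nonneg (hGn p)]; exact hGF p
  have h1 : ∫ p, G p ≤ Acst (m + 1) b := by
    rw [hA]; exact integral_mono hGi hFe hGF
  refine le_trans (le_of_eq ?_) h1
  have h2 : ∫ p, G p = ∫ y : EuclideanSpace ℝ (Fin (m + 1)), ∫ z : ℝ, G (z, y) := by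
    exact integral_prod_symm G hGi
  rw [h2, ← integral_const_mul]
  congr 1
  ext y
  have h3 : (fun z : ℝ => G (z, y)) = (Icc (-(‖y‖ / √b)) (‖y‖ / √b)).indicator (fun _ => g y) := by
    ext z
    by_cases hz : |z| ≤ ‖y‖ / √b
    · have m1 : (z, y) ∈ S := hz
      have m2 : z ∈ Icc (-(‖y‖ / √b)) (‖y‖ / √b) := abs_le.mp hz
      rw [hG, indicator_of_mem m1, indicator_of_mem m2]
    · have m1 : (z, y) ∉ S := hz
      have m2 : z ∉ Icc (-(‖y‖ / √b)) (‖y‖ / √b) := fun hm => hz (abs_le.mpr hm)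
      rw [hG, indicator_of_notMem m1, indicator_of_notMem m2]
  rw [h3, integral_indicator_const _ measurableSet_Icc]
  have h4 : 0 ≤ ‖y‖ / √b := by positivity
  rw [Measure.real, Real.volume_Icc, ENNReal.toReal_ofReal (by linarith)]
  rw [hg, smul_eq_mul]
  have h5 : 0 < √b := Real.sqrt_pos.mpr hbr
  field_simp
  ring


theorem Acst_comp (m b : ℕ) (hb' : 4 * (m + 2) ≤ b) :
    ((m : ℝ) + 2) / (4 * √b) * Acst m b ≤ Acst (m + 1) b := by
  have hb0 : 0 < b := by omega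
  have hbr : (0 : ℝ) < b := by exact_mod_cast hb0
  have hsq : 0 < √b := Real.sqrt_pos.mpr hbr
  refine le_trans ?_ (Acomp_prod m b hb0)
  set h : EuclideanSpace ℝ (Fin (m + 1)) → ℝ :=
    fun y => hb b (EuclideanSpace.single (0 : Fin (m + 1)) (1 : ℝ)) y with hh
  have hsc := scale (fun y => ‖y‖ * h y) 2 (fun r y hr => by
    have := Acomp_hom m b r y hr
    change ‖r • y‖ * h (r • y) = r ^ 2 * (‖y‖ * h y)
    rw [norm_smul, Real.norm_eq_abs, abs_of_pos hr, hh]
    simp only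
    rw [this]; ring) (1 + 1 / (2 * b)) (by positivity)
  have hfr : Module.finrank ℝ (EuclideanSpace ℝ (Fin (m + 1))) = m + 1 := by simp
  rw [hfr] at hsc
  have hm := Acomp_moment m b
  have hA0 : 0 ≤ Acst m b := integral_nonneg fun y =>
    mul_nonneg (Real.exp_pos _).le (Acomp_nonneg m b y)
  have h1 : 3 / 4 ≤ ((1 + 1 / (2 * (b : ℝ)))⁻¹) ^ (m + 1 + 2) := by
    have e1 : 1 + 1 / (2 * (b : ℝ)) ≤ Real.exp (1 / (2 * b)) := by
      have := Real.add_one_le_exp (1 / (2 * (b : ℝ))); linarith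
    have e2 : (1 + 1 / (2 * (b : ℝ))) ^ (m + 1 + 2) ≤ Real.exp (1 / 4) := by
      calc (1 + 1 / (2 * (b : ℝ))) ^ (m + 1 + 2) ≤ (Real.exp (1 / (2 * b))) ^ (m + 1 + 2) :=
            pow_le_pow_left₀ (by positivity) e1 _
        _ = Real.exp (((m + 1 + 2 : ℕ) : ℝ) * (1 / (2 * b))) := by rw [← Real.exp_nat_mul]
        _ ≤ Real.exp (1 / 4) := by
            apply Real.exp_le_exp.mpr
            rw [mul_one_div, div_le_div_iff₀ (by positivity) (by norm_num)]
            have : (4 * ((m : ℝ) + 2)) ≤ b := by exact_mod_cast hb'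
            push_cast
            have hm0 : (0 : ℝ) ≤ m := by positivity
            nlinarith
    have e3 : 3 / 4 ≤ Real.exp (-(1 / 4)) := by
      have := Real.add_one_le_exp (-(1 / 4 : ℝ)); linarith
    calc (3 / 4 : ℝ) ≤ Real.exp (-(1 / 4)) := e3
      _ = (Real.exp (1 / 4))⁻¹ := Real.exp_neg _
      _ ≤ ((1 + 1 / (2 * (b : ℝ))) ^ (m + 1 + 2))⁻¹ := inv_anti₀ (by positivity) e2
      _ = _ := by rw [inv_pow]
  rw [hsc]
  have h2 : (3 / 4 : ℝ) * (((m : ℝ) + 2) / 2 * Acst m b) ≤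
      ((1 + 1 / (2 * (b : ℝ)))⁻¹) ^ (m + 1 + 2) * ∫ x, Real.exp (-‖x‖) * (‖x‖ * h x) := by
    apply mul_le_mul h1 hm (by positivity) (by positivity)
  calc ((m : ℝ) + 2) / (4 * √b) * Acst m b =
      2 / (3 * √b) * ((3 / 4 : ℝ) * (((m : ℝ) + 2) / 2 * Acst m b)) := by
        field_simp
    _ ≤ _ := mul_le_mul_of_nonneg_left h2 (by positivity)


theorem volform {E : Type*} [NormedAddCommGroup E] [InnerProductSpace ℝ E]
    [FiniteDimensional ℝ E] [MeasurableSpace E] [BorelSpace E] [Nontrivial E] (g : E → ℝ)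
    (h3 : ∀ x y, g (x + y) ≤ g x + g y) (h5 : ∀ (r : ℝ) x, g (r • x) = |r| * g x)
    (h4 : ∀ x, g x = 0 → x = 0) :
    (volume {x | g x ≤ 1}).toReal =
      (∫ x, Real.exp (-(g x))) / (Nat.factorial (Module.finrank ℝ E) : ℝ) := by
  have h1 : g 0 = 0 := by
    have := h5 0 (0 : E)
    simpa using this
  have h2 : ∀ x, g (-x) = g x := by
    intro x
    have := h5 (-1) x
    simpa using this
  have h5' : ∀ (r : ℝ) (x : E), g (r • x) ≤ |r| * g x := fun r x => (h5 r x).le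
  have hle := measure_le_eq_lt (E := E) volume h1 h2 h3 (fun {x} hx => h4 x hx) h5' 1
  have hvol := measure_lt_one_eq_integral_div_gamma (E := E) volume h1 h2 h3 (fun {x} hx => h4 x hx) h5'
    (p := 1) one_pos
  rw [hle, hvol]
  have hG : Real.Gamma ((Module.finrank ℝ E : ℝ) / 1 + 1) = (Nat.factorial (Module.finrank ℝ E) : ℝ) := by
    rw [div_one, Real.Gamma_nat_eq_factorial]
  rw [hG]
  simp only [Real.rpow_one]
  rw [ENNReal.toReal_ofReal]
  positivity


theorem ballvol (m : ℕ) (hm : 1 ≤ m) :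
    volume (Metric.ball (0 : EuclideanSpace ℝ (Fin (2 * m))) 1) ≤
      ENNReal.ofReal ((9 / m : ℝ) ^ m) := by
  haveI : Nonempty (Fin (2 * m)) := ⟨⟨0, by omega⟩⟩
  rw [EuclideanSpace.volume_ball, ENNReal.ofReal_one, one_pow, one_mul, Fintype.card_fin]
  apply ENNReal.ofReal_le_ofReal
  have h1 : ((2 * m : ℕ) : ℝ) / 2 + 1 = (m : ℝ) + 1 := by push_cast; ring
  rw [h1, Real.Gamma_nat_eq_factorial, pow_mul, Real.sq_sqrt Real.pi_pos.le]
  have hm0 : (0 : ℝ) < m := by exact_mod_cast hm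
  have hf : (0 : ℝ) < m.factorial := by exact_mod_cast Nat.factorial_pos m
  have h2 : (m : ℝ) ^ m / m.factorial ≤ Real.exp m := Real.pow_div_factorial_le_exp m hm0.le m
  rw [div_pow, div_le_div_iff₀ hf (by positivity)]
  rw [div_le_iff₀ hf] at h2
  have h3 : Real.pi * Real.exp 1 ≤ 9 := by
    have h4 := Real.pi_lt_d2
    have h5 := Real.exp_one_lt_d9
    have h6 := Real.pi_pos
    have h7 := Real.exp_pos 1
    nlinarith
  calc Real.pi ^ m * (m : ℝ) ^ m ≤ Real.pi ^ m * (Real.exp m * m.factorial) :=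
        mul_le_mul_of_nonneg_left h2 (by positivity)
    _ = (Real.pi * Real.exp 1) ^ m * m.factorial := by
        rw [mul_pow, ← Real.exp_nat_mul, mul_one]; ring
    _ ≤ 9 ^ m * m.factorial := by
        apply mul_le_mul_of_nonneg_right _ hf.le
        exact pow_le_pow_left₀ (by positivity) h3 m

/-! ## Main part -/

theorem hb_nonneg {E : Type*} [NormedAddCommGroup E] [InnerProductSpace ℝ E] (b : ℕ) (θ x : E) :
    0 ≤ hb b θ x := by
  unfold hb; positivity

theorem hb_le {E : Type*} [NormedAddCommGroup E] [InnerProductSpace ℝ E] (b : ℕ) (θ x : E)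
    (hθ : ‖θ‖ = 1) : hb b θ x ≤ ‖x‖ := by
  unfold hb
  have h1 : |inner ℝ x θ| ≤ ‖x‖ := by
    have := abs_real_inner_le_norm x θ
    rwa [hθ, mul_one] at this
  have h2 : ((inner ℝ x θ) ^ 2 / ‖x‖ ^ 2) ^ b ≤ 1 := by
    apply pow_le_one₀ (by positivity)
    apply div_le_one_of_le₀ _ (by positivity)
    rw [← sq_abs]
    exact pow_le_pow_left₀ (abs_nonneg _) h1 2
  calc |inner ℝ x θ| * ((inner ℝ x θ) ^ 2 / ‖x‖ ^ 2) ^ b ≤ ‖x‖ * 1 :=
        mul_le_mul h1 h2 (by positivity) (by positivity)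
    _ = ‖x‖ := mul_one _

theorem hb_le' {E : Type*} [NormedAddCommGroup E] [InnerProductSpace ℝ E] (b : ℕ) (θ x : E) :
    hb b θ x ≤ ‖θ‖ ^ (2 * b + 1) * ‖x‖ := by
  unfold hb
  have h1 : |inner ℝ x θ| ≤ ‖x‖ * ‖θ‖ := abs_real_inner_le_norm x θ
  have h2 : ((inner ℝ x θ) ^ 2 / ‖x‖ ^ 2) ^ b ≤ (‖θ‖ ^ 2) ^ b := by
    apply pow_le_pow_left₀ (by positivity)
    rcases eq_or_ne ‖x‖ 0 with h0 | h0
    · rw [h0]; simp
    · rw [div_le_iff₀ (by positivity)]
      rw [← sq_abs]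
      calc |inner ℝ x θ| ^ 2 ≤ (‖x‖ * ‖θ‖) ^ 2 := pow_le_pow_left₀ (abs_nonneg _) h1 2
        _ = ‖θ‖ ^ 2 * ‖x‖ ^ 2 := by ring
  calc |inner ℝ x θ| * ((inner ℝ x θ) ^ 2 / ‖x‖ ^ 2) ^ b ≤ (‖x‖ * ‖θ‖) * (‖θ‖ ^ 2) ^ b :=
        mul_le_mul h1 h2 (by positivity) (by positivity)
    _ = ‖θ‖ ^ (2 * b + 1) * ‖x‖ := by rw [← pow_mul]; ring

theorem hb_smul {E : Type*} [NormedAddCommGroup E] [InnerProductSpace ℝ E] (b : ℕ) (θ x : E)
    (r : ℝ) : hb b θ (r • x) = |r| * hb b θ x := by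
  unfold hb
  rcases eq_or_ne r 0 with h0 | h0
  · simp [h0]
  · have : (inner ℝ (r • x) θ : ℝ) = r * inner ℝ x θ := real_inner_smul_left _ _ _
    rw [this, norm_smul, abs_mul, mul_pow, mul_pow]
    have h3 : r ^ 2 * (inner ℝ x θ) ^ 2 / (‖r‖ ^ 2 * ‖x‖ ^ 2) = (inner ℝ x θ) ^ 2 / ‖x‖ ^ 2 := by
      rw [Real.norm_eq_abs, sq_abs]
      exact mul_div_mul_left _ _ (by positivity)
    rw [h3]; ring

theorem hb_measurable {E : Type*} [NormedAddCommGroup E] [InnerProductSpace ℝ E]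
    [FiniteDimensional ℝ E] [MeasurableSpace E] [BorelSpace E] (b : ℕ) (θ : E) :
    Measurable (hb b θ) := by
  unfold hb
  have h1 : Measurable fun x : E => (inner ℝ x θ : ℝ) :=
    (continuous_id.inner continuous_const).measurable
  have h2 : Measurable fun x : E => ‖x‖ := continuous_norm.measurable
  exact (h1.abs).mul (((h1.pow_const 2).div (h2.pow_const 2)).pow_const b)

/-- upper bound for the difference of the exponential integrals (sections) -/
theorem secbound {E : Type*} [NormedAddCommGroup E] [InnerProductSpace ℝ E]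
    [FiniteDimensional ℝ E] [MeasurableSpace E] [BorelSpace E] (m b : ℕ)
    (hE : Module.finrank ℝ E = m + 1) (nK : E → ℝ) (R t : ℝ) (hR : 0 < R) (ht : 0 ≤ t)
    {ι : Type*} [Fintype ι] (w : ι → E) (hlo : ∀ x, ‖x‖ / R ≤ nK x) (hc : Continuous nK) :
    (∫ x, Real.exp (-(nK x))) - (∫ x, Real.exp (-(nK x + t * ∑ i, hb b (w i) x))) ≤
      t * R ^ (m + 2) * Acst m b * ∑ i, ‖w i‖ ^ (2 * b + 1) := by
  have hRi : 0 < R⁻¹ := inv_pos.mpr hR
  have i0 := intexp (E := E) 0 R⁻¹ hRi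
  have i1 := intexp (E := E) 1 R⁻¹ hRi
  simp only [pow_zero, mul_one, pow_one] at i0 i1
  have hHnn : ∀ x, 0 ≤ ∑ i, hb b (w i) x := fun x => Finset.sum_nonneg fun i _ => hb_nonneg b (w i) x
  have hHm : Measurable fun x => ∑ i, hb b (w i) x :=
    Finset.measurable_sum _ fun i _ => hb_measurable b (w i)
  have iK : Integrable (fun x => Real.exp (-(nK x))) := by
    refine i0.mono' (by fun_prop) (Filter.Eventually.of_forall fun x => ?_)
    rw [Real.norm_eq_abs, abs_of_pos (Real.exp_pos _)]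
    apply Real.exp_le_exp.mpr
    have := hlo x
    rw [div_eq_inv_mul] at this
    linarith
  have iL : Integrable (fun x => Real.exp (-(nK x + t * ∑ i, hb b (w i) x))) := by
    refine i0.mono' ?_ (Filter.Eventually.of_forall fun x => ?_)
    · exact (Real.measurable_exp.comp ((hc.measurable.add (hHm.const_mul t)).neg)).aestronglyMeasurable
    rw [Real.norm_eq_abs, abs_of_pos (Real.exp_pos _)]
    apply Real.exp_le_exp.mpr
    have := hlo x
    rw [div_eq_inv_mul] at this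
    have h2 := mul_nonneg ht (hHnn x)
    linarith
  have ihb : ∀ i, Integrable (fun x => Real.exp (-(R⁻¹ * ‖x‖)) * hb b (w i) x) := by
    intro i
    refine (i1.const_mul (‖w i‖ ^ (2 * b + 1))).mono' ?_ (Filter.Eventually.of_forall fun x => ?_)
    · exact (Measurable.mul (by fun_prop) (hb_measurable b (w i))).aestronglyMeasurable
    · rw [Real.norm_eq_abs, abs_of_nonneg (mul_nonneg (Real.exp_pos _).le (hb_nonneg _ _ _))]
      have := hb_le' b (w i) x
      calc Real.exp (-(R⁻¹ * ‖x‖)) * hb b (w i) x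
          ≤ Real.exp (-(R⁻¹ * ‖x‖)) * (‖w i‖ ^ (2 * b + 1) * ‖x‖) :=
            mul_le_mul_of_nonneg_left this (Real.exp_pos _).le
        _ = ‖w i‖ ^ (2 * b + 1) * (Real.exp (-(R⁻¹ * ‖x‖)) * ‖x‖) := by ring
  rw [← integral_sub iK iL]
  calc ∫ x, (Real.exp (-(nK x)) - Real.exp (-(nK x + t * ∑ i, hb b (w i) x)))
      ≤ ∫ x, t * ∑ i, (Real.exp (-(R⁻¹ * ‖x‖)) * hb b (w i) x) := by
        apply integral_mono (iK.sub iL)
          ((integrable_finsetSum _ fun i _ => ihb i).const_mul t)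
        intro x
        simp only [Pi.sub_apply]
        rw [← Finset.mul_sum]
        have h1 : Real.exp (-(nK x + t * ∑ i, hb b (w i) x)) =
            Real.exp (-(nK x)) * Real.exp (-(t * ∑ i, hb b (w i) x)) := by
          rw [← Real.exp_add]; congr 1; ring
        rw [h1]
        have h2 : 1 - t * ∑ i, hb b (w i) x ≤ Real.exp (-(t * ∑ i, hb b (w i) x)) := by
          have := Real.add_one_le_exp (-(t * ∑ i, hb b (w i) x))
          linarith
        have h3 : Real.exp (-(nK x)) ≤ Real.exp (-(R⁻¹ * ‖x‖)) := by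
          apply Real.exp_le_exp.mpr
          have := hlo x
          rw [div_eq_inv_mul] at this
          linarith
        have h4 := mul_nonneg ht (hHnn x)
        have h5 := Real.exp_pos (-(nK x))
        nlinarith
    _ = t * ∑ i, ∫ x, Real.exp (-(R⁻¹ * ‖x‖)) * hb b (w i) x := by
        rw [integral_const_mul, integral_finsetSum _ fun i _ => ihb i]
    _ = t * ∑ i, (R ^ (m + 2) * (‖w i‖ ^ (2 * b + 1) * Acst m b)) := by
        congr 1
        apply Finset.sum_congr rfl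
        intro i _
        rw [scale (hb b (w i)) 1 (fun r x hr => by rw [hb_smul, abs_of_pos hr, pow_one]) R⁻¹ hRi,
          isotropy m b hE, inv_inv, hE]
    _ = t * R ^ (m + 2) * Acst m b * ∑ i, ‖w i‖ ^ (2 * b + 1) := by
        rw [Finset.mul_sum, Finset.mul_sum]
        apply Finset.sum_congr rfl
        intro i _
        ring

/-- lower bound for the difference of the exponential integrals (volumes) -/
theorem volbound {E : Type*} [NormedAddCommGroup E] [InnerProductSpace ℝ E]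
    [FiniteDimensional ℝ E] [MeasurableSpace E] [BorelSpace E] (m b N R : ℕ)
    (hE : Module.finrank ℝ E = m + 2) (g : E → ℝ) (t : ℝ) (hR : 1 ≤ R) (ht : 0 < t)
    (hb' : 8 * (m + 2) * R ^ 2 ≤ b)
    (θ : Fin N → E) (hθ : ∀ i, ‖θ i‖ = 1) (hlo : ∀ x, ‖x‖ / R ≤ g x) (hc : Continuous g)
    (hcone : ∀ i x, (1 - 1 / (2 * (R : ℝ) ^ 2)) * ‖x‖ ^ 2 ≤ (inner ℝ x (θ i)) ^ 2 →
      g x = ‖x‖ / R) :
    t * N * ((1 / (R : ℝ) + t * N * (2 * b + 1))⁻¹) ^ (m + 3) * (1 / 4 * Acst (m + 1) b) ≤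
    (∫ x, Real.exp (-(g x + t * N * (2 * b) * ‖x‖))) -
      (∫ x, Real.exp (-(g x + t * N * (2 * b) * ‖x‖ + t * ∑ i, hb b (θ i) x))) := by
  have hR0 : (0 : ℝ) < R := by exact_mod_cast hR
  have hRi : 0 < (R : ℝ)⁻¹ := inv_pos.mpr hR0
  have i0 := intexp (E := E) 0 (R : ℝ)⁻¹ hRi
  have i1 := intexp (E := E) 1 (R : ℝ)⁻¹ hRi
  simp only [pow_zero, mul_one, pow_one] at i0 i1
  set s : ℝ := 1 / (R : ℝ) + t * N * (2 * b + 1) with hs
  have hs0 : 0 < s := by positivity
  have js1 := intexp (E := E) 1 s hs0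
  simp only [pow_one] at js1
  set H : E → ℝ := fun x => ∑ i, hb b (θ i) x with hH
  have hHnn : ∀ x, 0 ≤ H x := fun x => Finset.sum_nonneg fun i _ => hb_nonneg b (θ i) x
  have hHle : ∀ x, H x ≤ N * ‖x‖ := by
    intro x
    calc H x ≤ ∑ i : Fin N, ‖x‖ := Finset.sum_le_sum fun i _ => hb_le b (θ i) x (hθ i)
      _ = N * ‖x‖ := by simp
  have hHm : Measurable H :=
    Finset.measurable_sum _ fun i _ => hb_measurable b (θ i)
  have hKm : Measurable fun x => g x + t * N * (2 * b) * ‖x‖ := by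
    exact (hc.add (continuous_const.mul continuous_norm)).measurable
  have hb0 : (0 : ℝ) ≤ t * N * (2 * b) := by positivity
  have hlo' : ∀ x, (R : ℝ)⁻¹ * ‖x‖ ≤ g x := by
    intro x; have := hlo x; rwa [div_eq_inv_mul] at this
  have iK : Integrable (fun x => Real.exp (-(g x + t * N * (2 * b) * ‖x‖))) := by
    refine i0.mono' (Real.measurable_exp.comp hKm.neg).aestronglyMeasurable
      (Filter.Eventually.of_forall fun x => ?_)
    rw [Real.norm_eq_abs, abs_of_pos (Real.exp_pos _)]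
    apply Real.exp_le_exp.mpr
    have := hlo' x
    have := mul_nonneg hb0 (norm_nonneg x)
    linarith
  have iL : Integrable (fun x => Real.exp (-(g x + t * N * (2 * b) * ‖x‖ + t * H x))) := by
    refine i0.mono' (Real.measurable_exp.comp
      ((hKm.add (hHm.const_mul t)).neg)).aestronglyMeasurable
      (Filter.Eventually.of_forall fun x => ?_)
    rw [Real.norm_eq_abs, abs_of_pos (Real.exp_pos _)]
    apply Real.exp_le_exp.mpr
    have := hlo' x
    have := mul_nonneg hb0 (norm_nonneg x)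
    have h2 := mul_nonneg ht.le (hHnn x)
    linarith
  let cone : Fin N → Set E := fun i =>
    {x : E | (1 - 1 / (2 * (R : ℝ) ^ 2)) * ‖x‖ ^ 2 ≤ (inner ℝ x (θ i)) ^ 2}
  have hconem : ∀ i, MeasurableSet (cone i) := by
    intro i
    apply IsClosed.measurableSet
    exact isClosed_le (by fun_prop) ((continuous_id.inner continuous_const).pow 2)
  have ihbs : ∀ i, Integrable (fun x => Real.exp (-(s * ‖x‖)) * hb b (θ i) x) := by
    intro i
    refine js1.mono' ?_ (Filter.Eventually.of_forall fun x => ?_)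
    · exact (Measurable.mul (by fun_prop) (hb_measurable b (θ i))).aestronglyMeasurable
    · rw [Real.norm_eq_abs, abs_of_nonneg (mul_nonneg (Real.exp_pos _).le (hb_nonneg _ _ _))]
      exact mul_le_mul_of_nonneg_left (hb_le b (θ i) x (hθ i)) (Real.exp_pos _).le
  have iind : ∀ i, Integrable (fun x => (cone i).indicator
      (fun x => Real.exp (-(s * ‖x‖)) * hb b (θ i) x) x) :=
    fun i => (ihbs i).indicator (hconem i)
  -- lower bound for each cone
  have hlow : ∀ i, (s⁻¹) ^ (m + 3) * (1 / 4 * Acst (m + 1) b) ≤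
      ∫ x, (cone i).indicator (fun x => Real.exp (-(s * ‖x‖)) * hb b (θ i) x) x := by
    intro i
    have e1 : ∀ x, (cone i).indicator (fun x => Real.exp (-(s * ‖x‖)) * hb b (θ i) x) x =
        Real.exp (-(s * ‖x‖)) * (cone i).indicator (hb b (θ i)) x := by
      intro x
      by_cases hx : x ∈ cone i
      · simp [hx]
      · simp [hx]
    simp_rw [e1]
    rw [scale ((cone i).indicator (hb b (θ i))) 1 ?_ s hs0, hE]
    · apply mul_le_mul_of_nonneg_left _ (by positivity)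
      have h1 := conemass (m + 2) b R hE (by omega) hR hb' (θ i) (hθ i)
      have h2 := isotropy (E := E) (m + 1) b hE (θ i)
      rw [hθ i, one_pow, one_mul] at h2
      rw [h2] at h1
      refine h1.trans (le_of_eq ?_)
      rw [← integral_indicator (hconem i)]
      congr 1
      funext x
      by_cases hx : x ∈ cone i
      · simp [hx]
      · simp [hx]
    · intro r x hr
      have hiff : r • x ∈ cone i ↔ x ∈ cone i := by
        simp only [cone, Set.mem_ofPred_eq, norm_smul, real_inner_smul_left, mul_pow,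
          Real.norm_eq_abs, sq_abs]
        have : (1 - 1 / (2 * (R : ℝ) ^ 2)) * (r ^ 2 * ‖x‖ ^ 2) =
          r ^ 2 * ((1 - 1 / (2 * (R : ℝ) ^ 2)) * ‖x‖ ^ 2) := by ring
        rw [this]
        exact mul_le_mul_iff_right₀ (by positivity)
      by_cases hx : x ∈ cone i
      · rw [Set.indicator_of_mem (hiff.mpr hx), Set.indicator_of_mem hx, hb_smul, abs_of_pos hr,
          pow_one]
      · rw [Set.indicator_of_notMem (fun h => hx (hiff.mp h)), Set.indicator_of_notMem hx, mul_zero]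
  rw [← integral_sub iK iL]
  calc t * N * (s⁻¹) ^ (m + 3) * (1 / 4 * Acst (m + 1) b)
      = t * ∑ i : Fin N, ((s⁻¹) ^ (m + 3) * (1 / 4 * Acst (m + 1) b)) := by
        simp only [Finset.sum_const, Finset.card_univ, Fintype.card_fin, nsmul_eq_mul]
        ring
    _ ≤ t * ∑ i, ∫ x, (cone i).indicator
          (fun x => Real.exp (-(s * ‖x‖)) * hb b (θ i) x) x :=
        mul_le_mul_of_nonneg_left (Finset.sum_le_sum fun i _ => hlow i) ht.le
    _ = ∫ x, t * ∑ i, (cone i).indicator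
          (fun x => Real.exp (-(s * ‖x‖)) * hb b (θ i) x) x := by
        rw [integral_const_mul, integral_finsetSum _ fun i _ => iind i]
    _ ≤ ∫ x, (Real.exp (-(g x + t * N * (2 * b) * ‖x‖)) -
          Real.exp (-(g x + t * N * (2 * b) * ‖x‖ + t * H x))) := by
        apply integral_mono ((integrable_finsetSum _ fun i _ => iind i).const_mul t)
          (iK.sub iL)
        intro x
        simp only
        have h1 : Real.exp (-(g x + t * N * (2 * b) * ‖x‖)) =
            Real.exp (-(g x + t * N * (2 * b) * ‖x‖ + t * H x)) * Real.exp (t * H x) := by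
          rw [← Real.exp_add]; congr 1; ring
        have h2 : t * H x + 1 ≤ Real.exp (t * H x) := Real.add_one_le_exp _
        have h3 : 0 < Real.exp (-(g x + t * N * (2 * b) * ‖x‖ + t * H x)) := Real.exp_pos _
        have h4 : Real.exp (-(g x + t * N * (2 * b) * ‖x‖ + t * H x)) * (t * H x) ≤
            Real.exp (-(g x + t * N * (2 * b) * ‖x‖)) -
              Real.exp (-(g x + t * N * (2 * b) * ‖x‖ + t * H x)) := by
          rw [h1]; nlinarith
        refine le_trans ?_ h4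
        rw [show Real.exp (-(g x + t * N * (2 * b) * ‖x‖ + t * H x)) * (t * H x) =
          t * ∑ i, (Real.exp (-(g x + t * N * (2 * b) * ‖x‖ + t * H x)) * hb b (θ i) x) by
            rw [← Finset.mul_sum]; ring]
        apply mul_le_mul_of_nonneg_left _ ht.le
        apply Finset.sum_le_sum
        intro i _
        by_cases hx : x ∈ cone i
        · rw [Set.indicator_of_mem hx]
          apply mul_le_mul_of_nonneg_right _ (hb_nonneg _ _ _)
          apply Real.exp_le_exp.mpr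
          have h5 := hcone i x hx
          have h6 : t * H x ≤ t * (N * ‖x‖) := mul_le_mul_of_nonneg_left (hHle x) ht.le
          rw [h5, hs]
          have : (1 / (R : ℝ) + t * N * (2 * b + 1)) * ‖x‖ =
            ‖x‖ / R + t * N * (2 * b) * ‖x‖ + t * (N * ‖x‖) := by ring
          linarith
        · rw [Set.indicator_of_notMem hx]
          exact mul_nonneg h3.le (hb_nonneg _ _ _)

theorem symmBody_of_norm {n : ℕ} (g : EuclideanSpace ℝ (Fin n) → ℝ) (c C : ℝ) (hc : 0 < c)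
    (h3 : ∀ x y, g (x + y) ≤ g x + g y) (h5 : ∀ (r : ℝ) x, g (r • x) = |r| * g x)
    (hlo : ∀ x, c * ‖x‖ ≤ g x) (hup : ∀ x, g x ≤ C * ‖x‖) :
    Continuous g ∧ IsSymmBody {x | g x ≤ 1} := by
  have hneg : ∀ x, g (-x) = g x := by
    intro x
    have := h5 (-1) x
    simpa using this
  have hC : ∀ x y, g x - g y ≤ C * ‖x - y‖ := by
    intro x y
    have h1 := h3 (x - y) y
    rw [sub_add_cancel] at h1
    linarith [hup (x - y)]
  have hcont : Continuous g := by
    rcases le_or_gt C 0 with hC0 | hC0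
    · have hz : ∀ x, g x = 0 := by
        intro x
        have h1 := hlo x
        have h2 := hup x
        have h3 := norm_nonneg x
        have h4 : c * ‖x‖ ≤ C * ‖x‖ := h1.trans h2
        nlinarith [mul_nonneg hc.le h3, mul_nonneg (neg_nonneg.mpr hC0) h3]
      have : g = fun _ => 0 := funext hz
      rw [this]; exact continuous_const
    · have : LipschitzWith (Real.toNNReal C) g := by
        apply LipschitzWith.of_dist_le_mul
        intro x y
        rw [Real.coe_toNNReal C hC0.le, Real.dist_eq, dist_eq_norm, abs_le]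
        constructor
        · have := hC y x
          rw [norm_sub_rev] at this
          linarith
        · exact hC x y
      exact this.continuous
  refine ⟨hcont, ?_, ?_, ?_, ?_⟩
  · apply Metric.isCompact_of_isClosed_isBounded
    · exact isClosed_le hcont continuous_const
    · apply (Metric.isBounded_closedBall (x := (0 : EuclideanSpace ℝ (Fin n))) (r := c⁻¹)).subset
      intro x hx
      rw [mem_closedBall_zero_iff]
      have h1 := hlo x
      have h2 : g x ≤ 1 := hx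
      rw [← mul_one c⁻¹]
      rw [← div_eq_inv_mul, le_div_iff₀ hc]
      linarith
  · intro x hx y hy a b ha hb hab
    have hx' : g x ≤ 1 := hx
    have hy' : g y ≤ 1 := hy
    show g (a • x + b • y) ≤ 1
    have h1 := h3 (a • x) (b • y)
    rw [h5, h5, abs_of_nonneg ha, abs_of_nonneg hb] at h1
    nlinarith
  · refine ⟨0, ?_⟩
    have h0 : g 0 = 0 := by
      have := h5 0 0
      simpa using this
    have hopen : IsOpen {x | g x < 1} := isOpen_lt hcont continuous_const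
    apply interior_maximal (fun x (hx : g x < 1) => le_of_lt hx) hopen
    show g 0 < 1
    rw [h0]; norm_num
  · intro x hx
    show g (-x) ≤ 1
    rw [hneg]; exact hx

/-- a power of a polynomial is eventually below an exponential -/
theorem exM (R n₀ : ℕ) : ∃ M : ℕ, 2 ≤ M ∧ n₀ ≤ 2 * M ∧
    (2 * (((2 * M) ^ 2 : ℕ) : ℝ)) ^ (4 * R ^ 2) ≤ 2 ^ (2 * M) := by
  have h := (tendsto_pow_const_div_const_pow_of_one_lt (8 * R ^ 2) (r := (4 : ℝ))
    (by norm_num)).const_mul ((8 : ℝ) ^ (4 * R ^ 2))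
  rw [mul_zero] at h
  have h1 := (h.eventually (gt_mem_nhds (show (0 : ℝ) < 1 by norm_num)))
  obtain ⟨M, hM1, hM2⟩ := (h1.and (Filter.eventually_ge_atTop (max 2 n₀))).exists
  refine ⟨M, le_trans (le_max_left _ _) hM2, ?_, ?_⟩
  · have := le_trans (le_max_right 2 n₀) hM2
    omega
  · have h4 : (0 : ℝ) < 4 ^ M := by positivity
    have h5 : (8 : ℝ) ^ (4 * R ^ 2) * (M : ℝ) ^ (8 * R ^ 2) < 4 ^ M := by
      rw [← mul_div_assoc, div_lt_one h4] at hM1
      exact hM1
    have h6 : (2 * (((2 * M) ^ 2 : ℕ) : ℝ)) ^ (4 * R ^ 2) =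
        (8 : ℝ) ^ (4 * R ^ 2) * (M : ℝ) ^ (8 * R ^ 2) := by
      have : (2 * (((2 * M) ^ 2 : ℕ) : ℝ)) = 8 * (M : ℝ) ^ 2 := by push_cast; ring
      rw [this, mul_pow, ← pow_mul]
      congr 2; ring
    have h7 : (2 : ℝ) ^ (2 * M) = 4 ^ M := by rw [pow_mul]; norm_num
    rw [h6, h7]; exact h5.le

/-- The hyperplane section: projection of a unit vector. -/
theorem proj_norm {n : ℕ} (F : Submodule ℝ (EuclideanSpace ℝ (Fin n)))
    (ν : EuclideanSpace ℝ (Fin n)) (hν : ‖ν‖ = 1) (hν' : ν ∈ Fᗮ)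
    (θ : EuclideanSpace ℝ (Fin n)) (hθ : ‖θ‖ = 1) :
    ‖F.orthogonalProjectionOnto θ‖ ^ 2 ≤ 1 - (inner ℝ θ ν) ^ 2 := by
  have h1 : ‖θ‖ ^ 2 = ‖F.orthogonalProjectionOnto θ‖ ^ 2 +
      ‖θ - (F.orthogonalProjectionOnto θ : EuclideanSpace ℝ (Fin n))‖ ^ 2 := by
    have h2 : inner ℝ (F.orthogonalProjectionOnto θ : EuclideanSpace ℝ (Fin n))
        (θ - (F.orthogonalProjectionOnto θ : EuclideanSpace ℝ (Fin n))) = 0 := by
      apply Submodule.inner_right_of_mem_orthogonal (F.orthogonalProjectionOnto θ).2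
      exact F.sub_starProjection_mem_orthogonal θ
    have h3 : θ = (F.orthogonalProjectionOnto θ : EuclideanSpace ℝ (Fin n)) +
      (θ - (F.orthogonalProjectionOnto θ : EuclideanSpace ℝ (Fin n))) := by abel
    have h4 := norm_add_sq_real (F.orthogonalProjectionOnto θ : EuclideanSpace ℝ (Fin n))
      (θ - (F.orthogonalProjectionOnto θ : EuclideanSpace ℝ (Fin n)))
    rw [← h3, h2] at h4
    rw [h4]; simp
  have h5 : inner ℝ θ ν = inner ℝ (θ - (F.orthogonalProjectionOnto θ : EuclideanSpace ℝ (Fin n))) ν := by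
    rw [inner_sub_left, Submodule.inner_right_of_mem_orthogonal (F.orthogonalProjectionOnto θ).2 hν']
    simp
  have h6 : (inner ℝ θ ν) ^ 2 ≤
      ‖θ - (F.orthogonalProjectionOnto θ : EuclideanSpace ℝ (Fin n))‖ ^ 2 := by
    rw [h5, ← sq_abs]
    apply pow_le_pow_left₀ (abs_nonneg _)
    have := abs_real_inner_le_norm (θ - (F.orthogonalProjectionOnto θ : EuclideanSpace ℝ (Fin n))) ν
    rwa [hν, mul_one] at this
  rw [hθ] at h1
  linarith

theorem exists_normal {n : ℕ} (F : Submodule ℝ (EuclideanSpace ℝ (Fin n))) (hn : 1 ≤ n)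
    (hF : Module.finrank ℝ F = n - 1) : ∃ ν : EuclideanSpace ℝ (Fin n), ‖ν‖ = 1 ∧ ν ∈ Fᗮ := by
  have h1 : Fᗮ ≠ ⊥ := by
    intro h
    rw [Submodule.orthogonal_eq_bot_iff] at h
    rw [h, finrank_top, finrank_euclideanSpace_fin] at hF
    omega
  obtain ⟨v, hv, hv0⟩ := Submodule.exists_mem_ne_zero_of_ne_bot h1
  refine ⟨‖v‖⁻¹ • v, ?_, Submodule.smul_mem _ _ hv⟩
  rw [norm_smul, norm_inv, norm_norm, inv_mul_cancel₀ (norm_ne_zero_iff.mpr hv0)]

theorem pow_concave (a a' p : ℝ) (ha : 0 < a) (ha' : 0 ≤ a') (hp0 : 0 ≤ p) (hp1 : p ≤ 1) :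
    p * a ^ (p - 1) * (a - a') ≤ a ^ p - a' ^ p := by
  have h1 : (a' / a) ^ p ≤ 1 + p * (a' / a - 1) := by
    have := rpow_one_add_le_one_add_mul_self (s := a' / a - 1) (p := p) ?_ hp0 hp1
    · simpa using this
    · have : 0 ≤ a' / a := by positivity
      linarith
  have h2 : a' ^ p = a ^ p * (a' / a) ^ p := by
    rw [← Real.mul_rpow ha.le (by positivity)]
    congr 1; field_simp
  have h3 : 0 < a ^ p := Real.rpow_pos_of_pos ha p
  have h4 : a ^ (p - 1) = a ^ p / a := by rw [Real.rpow_sub_one ha.ne']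
  rw [h2, h4]
  have h5 : a ^ p * (a' / a) ^ p ≤ a ^ p * (1 + p * (a' / a - 1)) :=
    mul_le_mul_of_nonneg_left h1 h3.le
  have h6 : p * (a ^ p / a) * (a - a') = a ^ p - a ^ p * (1 + p * (a' / a - 1)) := by
    field_simp; ring
  rw [h6]; linarith

theorem key (C : ℝ) (hC : 0 < C) : ∃ n : ℕ, 2 ≤ n ∧ StronglyFails n C := by
  obtain ⟨R, hR, n₀, hfr⟩ := frame (1 / (4000 * C)) (by positivity)
  obtain ⟨M, hM, hMn, hMpow⟩ := exM R n₀
  obtain ⟨n, hn⟩ : ∃ n, n = 2 * M := ⟨_, rfl⟩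
  rw [← hn] at hMn hMpow
  obtain ⟨θ, hθ, hsum⟩ := hfr n hMn
  obtain ⟨m, hm⟩ : ∃ m, n = m + 2 := ⟨2 * M - 2, by omega⟩
  obtain ⟨g, g3, g5, glo, gup, gcone, gvol⟩ := body0 n (n ^ 2) R (by omega)
    (Nat.one_le_pow _ _ (by omega)) hR θ hθ
  have hR0 : (0 : ℝ) < R := by exact_mod_cast hR
  have hR1 : (1 : ℝ) ≤ R := by exact_mod_cast hR
  have hn0 : (0 : ℝ) < n := by
    have : 0 < n := by omega
    exact_mod_cast this
  have hfin : Module.finrank ℝ (EuclideanSpace ℝ (Fin n)) = m + 2 := by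
    rw [finrank_euclideanSpace_fin, hm]
  obtain ⟨b, hbd⟩ : ∃ b, b = 8 * n * R ^ 2 := ⟨_, rfl⟩
  rw [← hbd] at hsum
  obtain ⟨N, hNd⟩ : ∃ N : ℝ, N = ((n ^ 2 : ℕ) : ℝ) := ⟨_, rfl⟩
  have hN0 : (0 : ℝ) < N := by rw [hNd]; push_cast; positivity
  have hb0 : (0 : ℝ) ≤ b := Nat.cast_nonneg _
  obtain ⟨t, ht⟩ : ∃ t : ℝ, t = 1 / (2 * (n + 1) * R * N * (2 * b + 1)) := ⟨_, rfl⟩
  have ht0 : 0 < t := by rw [ht]; positivity
  have hHnn : ∀ x, 0 ≤ ∑ i, hb b (θ i) x := fun x =>
    Finset.sum_nonneg fun i _ => hb_nonneg b (θ i) x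
  have hHle : ∀ x, ∑ i, hb b (θ i) x ≤ N * ‖x‖ := by
    intro x
    calc ∑ i, hb b (θ i) x ≤ ∑ i : Fin (n ^ 2), ‖x‖ :=
          Finset.sum_le_sum fun i _ => hb_le b (θ i) x (hθ i)
      _ = N * ‖x‖ := by simp [hNd]
  -- the two norms
  let nK : EuclideanSpace ℝ (Fin n) → ℝ := fun x => g x + t * N * (2 * b) * ‖x‖
  let nL : EuclideanSpace ℝ (Fin n) → ℝ := fun x => nK x + t * ∑ i, hb b (θ i) x
  have hc0 : 0 ≤ t * N * (2 * b) := by positivity
  have K3 : ∀ x y, nK (x + y) ≤ nK x + nK y := by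
    intro x y
    have h1 := g3 x y
    have h2 := mul_le_mul_of_nonneg_left (norm_add_le x y) hc0
    simp only [nK]
    linarith
  have K5 : ∀ (r : ℝ) x, nK (r • x) = |r| * nK x := by
    intro r x
    simp only [nK, g5, norm_smul, Real.norm_eq_abs]; ring
  have Lalt : ∀ x, nL x = g x + t * ∑ i, (hb b (θ i) x + 2 * b * ‖x‖) := by
    intro x
    simp only [nL, nK, Finset.sum_add_distrib, Finset.sum_const, Finset.card_univ,
      Fintype.card_fin, nsmul_eq_mul, hNd]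
    ring
  have L3 : ∀ x y, nL (x + y) ≤ nL x + nL y := by
    intro x y
    rw [Lalt, Lalt, Lalt]
    have h1 := g3 x y
    have h2 : ∑ i, (hb b (θ i) (x + y) + 2 * b * ‖x + y‖) ≤
        ∑ i, (hb b (θ i) x + 2 * b * ‖x‖) + ∑ i, (hb b (θ i) y + 2 * b * ‖y‖) := by
      rw [← Finset.sum_add_distrib]
      exact Finset.sum_le_sum fun i _ => hb_sub b (θ i) (hθ i) x y
    have h3 := mul_le_mul_of_nonneg_left h2 ht0.le
    linarith
  have L5 : ∀ (r : ℝ) x, nL (r • x) = |r| * nL x := by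
    intro r x
    have h1 : ∑ i, hb b (θ i) (r • x) = |r| * ∑ i, hb b (θ i) x := by
      rw [Finset.mul_sum]
      exact Finset.sum_congr rfl fun i _ => hb_smul b (θ i) x r
    simp only [nL]
    rw [K5, h1]; ring
  have Klo : ∀ x, ‖x‖ / R ≤ nK x := by
    intro x
    have h1 := glo x
    have h2 := mul_nonneg hc0 (norm_nonneg x)
    simp only [nK]; linarith
  have KL : ∀ x, nK x ≤ nL x := by
    intro x
    have := mul_nonneg ht0.le (hHnn x)
    simp only [nL]; linarith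
  have Kup : ∀ x, nK x ≤ (1 + t * N * (2 * b)) * ‖x‖ := by
    intro x
    have h1 := gup x
    simp only [nK]; linarith
  have Lup : ∀ x, nL x ≤ (1 + t * N * (2 * b) + t * N) * ‖x‖ := by
    intro x
    have h1 := Kup x
    have h2 := mul_le_mul_of_nonneg_left (hHle x) ht0.le
    simp only [nL]; linarith
  have hgc : Continuous g := (symmBody_of_norm g (R : ℝ)⁻¹ 1 (inv_pos.mpr hR0) g3 g5
    (fun x => by rw [← div_eq_inv_mul]; exact glo x) (fun x => by rw [one_mul]; exact gup x)).1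
  obtain ⟨hKc, hKb⟩ := symmBody_of_norm nK (R : ℝ)⁻¹ _ (inv_pos.mpr hR0) K3 K5
    (fun x => by rw [← div_eq_inv_mul]; exact Klo x) Kup
  obtain ⟨hLc, hLb⟩ := symmBody_of_norm nL (R : ℝ)⁻¹ _ (inv_pos.mpr hR0) L3 L5
    (fun x => by rw [← div_eq_inv_mul]; exact (Klo x).trans (KL x)) Lup
  have hA0 := Acst_pos m b
  have hA1 := Acst_pos (m + 1) b
  have hη : (1 / (4000 * C)) * (n : ℝ) ^ 2 = (1 / (4000 * C)) * N := by rw [hNd]; push_cast; ring
  refine ⟨n, by omega, {x | nK x ≤ 1}, {x | nL x ≤ 1}, hKb, hLb,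
    fun x hx => (KL x).trans hx,
    (t * (R : ℝ) ^ (m + 2) * Acst m b * ((1 / (4000 * C)) * N)) / (Nat.factorial (m + 1) : ℝ),
    ?_, ?_⟩
  · -- sections
    rintro _ ⟨F, hF, rfl⟩
    have hF1 : Module.finrank ℝ F = m + 1 := by omega
    have : Nontrivial F := Module.nontrivial_of_finrank_pos (R := ℝ) (by omega)
    obtain ⟨ν, hν1, hν2⟩ := exists_normal F (by omega) hF
    have h4K : ∀ x : EuclideanSpace ℝ (Fin n), nK x = 0 → x = 0 := by
      intro x hx
      have h1 := Klo x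
      rw [hx, div_le_iff₀ hR0, zero_mul] at h1
      exact norm_le_zero_iff.mp h1
    have h4L : ∀ x : EuclideanSpace ℝ (Fin n), nL x = 0 → x = 0 := by
      intro x hx
      have h1 := (Klo x).trans (KL x)
      rw [hx, div_le_iff₀ hR0, zero_mul] at h1
      exact norm_le_zero_iff.mp h1
    have vK := volform (E := F) (fun x => nK x) (fun x y => by simpa using K3 x y)
      (fun r x => by simpa using K5 r x) (fun x hx => by
        have := h4K x hx; exact_mod_cast this)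
    have vL := volform (E := F) (fun x => nL x) (fun x y => by simpa using L3 x y)
      (fun r x => by simpa using L5 r x) (fun x hx => by
        have := h4L x hx; exact_mod_cast this)
    have hwi : ∀ (i : Fin (n ^ 2)) (x : F), hb b (F.orthogonalProjectionOnto (θ i)) x =
        hb b (θ i) (x : EuclideanSpace ℝ (Fin n)) := by
      intro i x
      have h1 : (inner ℝ x (F.orthogonalProjectionOnto (θ i)) : ℝ) =
          inner ℝ (x : EuclideanSpace ℝ (Fin n)) (θ i) := by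
        rw [Submodule.coe_inner]
        have h2 : inner ℝ (x : EuclideanSpace ℝ (Fin n))
          (θ i - (F.orthogonalProjectionOnto (θ i) : EuclideanSpace ℝ (Fin n))) = 0 :=
          Submodule.inner_right_of_mem_orthogonal x.2 (F.sub_starProjection_mem_orthogonal (θ i))
        rw [inner_sub_right] at h2
        linarith
      unfold hb
      rw [h1, Submodule.coe_norm]
    have hsec := secbound (E := F) m b hF1 (fun x => nK x) R t hR0 ht0.le
      (fun i => F.orthogonalProjectionOnto (θ i)) (fun x => Klo x)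
      (hKc.comp continuous_subtype_val)
    have hsumF : ∑ i, ‖F.orthogonalProjectionOnto (θ i)‖ ^ (2 * b + 1) ≤
        (1 / (4000 * C)) * N := by
      rw [← hη]
      refine le_trans (Finset.sum_le_sum fun i _ => ?_) (hsum ν hν1)
      have h1 := proj_norm F ν hν1 hν2 (θ i) (hθ i)
      have h2 : ‖F.orthogonalProjectionOnto (θ i)‖ ≤ 1 := by
        have h3 : ‖F.orthogonalProjectionOnto (θ i)‖ ^ 2 ≤ 1 := by
          have := sq_nonneg (inner ℝ (θ i) ν : ℝ)
          linarith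
        exact (sq_le_one_iff₀ (norm_nonneg _)).mp h3
      calc ‖F.orthogonalProjectionOnto (θ i)‖ ^ (2 * b + 1)
          = (‖F.orthogonalProjectionOnto (θ i)‖ ^ 2) ^ b *
            ‖F.orthogonalProjectionOnto (θ i)‖ := by rw [← pow_mul, pow_succ]
        _ ≤ (1 - (inner ℝ (θ i) ν) ^ 2) ^ b * 1 := by
            apply mul_le_mul (pow_le_pow_left₀ (by positivity) h1 b) h2 (norm_nonneg _)
            apply pow_nonneg
            exact le_trans (by positivity) h1
        _ = (1 - (inner ℝ (θ i) ν) ^ 2) ^ b := mul_one _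
    have eK : sec {x | nK x ≤ 1} F = (∫ x : F, Real.exp (-(nK x))) / ((m + 1).factorial : ℝ) := by
      rw [← hF1, ← vK]; rfl
    have eL : sec {x | nL x ≤ 1} F = (∫ x : F, Real.exp (-(nL x))) / ((m + 1).factorial : ℝ) := by
      rw [← hF1, ← vL]; rfl
    rw [eK, eL, ← sub_div]
    apply div_le_div_of_nonneg_right _ (by positivity)
    have e3 : (∫ x : F, Real.exp (-(nL x))) =
        ∫ x : F, Real.exp (-(nK x + t * ∑ i, hb b (F.orthogonalProjectionOnto (θ i)) x)) := by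
      apply integral_congr_ae
      refine Filter.Eventually.of_forall fun x => ?_
      simp only [nL, hwi]
    rw [e3]
    refine hsec.trans ?_
    apply mul_le_mul_of_nonneg_left hsumF
    positivity
  · -- volumes
    have : Nontrivial (EuclideanSpace ℝ (Fin n)) :=
      Module.nontrivial_of_finrank_pos (R := ℝ) (by omega)
    have h4K : ∀ x : EuclideanSpace ℝ (Fin n), nK x = 0 → x = 0 := by
      intro x hx
      have h1 := Klo x
      rw [hx, div_le_iff₀ hR0, zero_mul] at h1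
      exact norm_le_zero_iff.mp h1
    have h4L : ∀ x : EuclideanSpace ℝ (Fin n), nL x = 0 → x = 0 := by
      intro x hx
      have h1 := (Klo x).trans (KL x)
      rw [hx, div_le_iff₀ hR0, zero_mul] at h1
      exact norm_le_zero_iff.mp h1
    have vK := volform nK K3 K5 h4K
    have vL := volform nL L3 L5 h4L
    have hvb := volbound (E := EuclideanSpace ℝ (Fin n)) m b (n ^ 2) R hfin g t hR ht0
      (by rw [hbd, hm]) θ hθ glo hgc gcone
    rw [← hNd] at hvb
    -- D₀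
    have hfac : ((Nat.factorial (Module.finrank ℝ (EuclideanSpace ℝ (Fin n))) : ℕ) : ℝ) =
        n * (Nat.factorial (m + 1) : ℝ) := by
      rw [hfin, Nat.factorial_succ (m + 1), hm]; push_cast; ring
    have hfp : (0 : ℝ) < (Nat.factorial (m + 1) : ℝ) := by positivity
    have hD : t * N * ((1 / (R : ℝ) + t * N * (2 * b + 1))⁻¹) ^ (m + 3) *
        (1 / 4 * Acst (m + 1) b) / (n * (Nat.factorial (m + 1) : ℝ)) ≤
        vol {x | nK x ≤ 1} - vol {x | nL x ≤ 1} := by
      unfold vol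
      rw [vK, vL, ← sub_div, hfac]
      apply div_le_div_of_nonneg_right _ (by positivity)
      exact hvb
    -- the factor
    have hs1 : (R : ℝ) ^ (m + 3) / 2 ≤ ((1 / (R : ℝ) + t * N * (2 * b + 1))⁻¹) ^ (m + 3) := by
      have e1 : 1 / (R : ℝ) + t * N * (2 * b + 1) = (1 + 1 / (2 * ((n : ℝ) + 1))) / R := by
        rw [ht]; field_simp
      have e2 : (m : ℝ) + 3 = (n : ℝ) + 1 := by rw [hm]; push_cast; ring
      have e3 : (1 + 1 / (2 * ((n : ℝ) + 1))) ^ (m + 3) ≤ 2 := by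
        have h1 : (1 : ℝ) + 1 / (2 * ((n : ℝ) + 1)) ≤ Real.exp (1 / (2 * ((n : ℝ) + 1))) := by
          have := Real.add_one_le_exp (1 / (2 * ((n : ℝ) + 1)))
          linarith
        calc (1 + 1 / (2 * ((n : ℝ) + 1))) ^ (m + 3)
            ≤ (Real.exp (1 / (2 * ((n : ℝ) + 1)))) ^ (m + 3) :=
              pow_le_pow_left₀ (by positivity) h1 _
          _ = Real.exp (1 / 2) := by
              rw [← Real.exp_nat_mul]
              congr 1
              push_cast
              rw [e2]; field_simp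
          _ ≤ 2 := by
              have h2 : Real.exp (1 / 2) ^ 2 = Real.exp 1 := by
                rw [← Real.exp_nat_mul]; congr 1; norm_num
              have h3 := Real.exp_one_lt_d9
              have h4 := Real.exp_pos (1 / 2)
              nlinarith
      rw [e1, inv_div, div_pow]
      rw [div_le_div_iff₀ (by norm_num) (by positivity)]
      apply mul_le_mul_of_nonneg_left e3 (by positivity)
    have hD1 : t * N * ((R : ℝ) ^ (m + 3) / 2) * (1 / 4 * Acst (m + 1) b) /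
        (n * (Nat.factorial (m + 1) : ℝ)) ≤ vol {x | nK x ≤ 1} - vol {x | nL x ≤ 1} := by
      refine le_trans ?_ hD
      apply div_le_div_of_nonneg_right _ (by positivity)
      apply mul_le_mul_of_nonneg_right _ (by positivity)
      exact mul_le_mul_of_nonneg_left hs1 (by positivity)
    -- comparison of constants
    have hM0 : (0 : ℝ) < M := by
      have : 0 < M := by omega
      exact_mod_cast this
    have hnM : (n : ℝ) = 2 * M := by rw [hn]; push_cast; ring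
    have hsq : √(b : ℝ) = 4 * R * √(M : ℝ) := by
      rw [Real.sqrt_eq_iff_mul_self_eq_of_pos (by positivity)]
      have h1 : √(M : ℝ) * √(M : ℝ) = M := Real.mul_self_sqrt hM0.le
      have h2 : (b : ℝ) = 16 * M * R ^ 2 := by
        rw [hbd]; push_cast; rw [hnM]; ring
      rw [h2]
      calc 4 * (R : ℝ) * √(M : ℝ) * (4 * R * √(M : ℝ)) = 16 * R ^ 2 * (√(M : ℝ) * √(M : ℝ)) := by ring
        _ = 16 * M * R ^ 2 := by rw [h1]; ring
    have hcomp : (n : ℝ) / (16 * R * √(M : ℝ)) * Acst m b ≤ Acst (m + 1) b := by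
      have h1 := Acst_comp m b (by rw [hbd, hm]; nlinarith [Nat.one_le_pow 2 R hR])
      have h2 : ((m : ℝ) + 2) / (4 * √(b : ℝ)) = (n : ℝ) / (16 * R * √(M : ℝ)) := by
        rw [hsq, hm]; push_cast; ring
      rwa [h2] at h1
    obtain ⟨Q, hQ⟩ : ∃ Q : ℝ, Q = t * N * (R : ℝ) ^ (m + 2) * Acst m b /
      (Nat.factorial (m + 1) : ℝ) := ⟨_, rfl⟩
    have hQ0 : 0 < Q := by rw [hQ]; positivity
    have hsM : 0 < √(M : ℝ) := Real.sqrt_pos.mpr hM0
    have hD2 : Q / (128 * √(M : ℝ)) ≤ vol {x | nK x ≤ 1} - vol {x | nL x ≤ 1} := by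
      refine le_trans ?_ hD1
      have h1 : t * N * ((R : ℝ) ^ (m + 3) / 2) * (1 / 4 * ((n : ℝ) / (16 * R * √(M : ℝ)) * Acst m b)) /
        (n * (Nat.factorial (m + 1) : ℝ)) = Q / (128 * √(M : ℝ)) := by
        rw [hQ]; field_simp; ring
      rw [← h1]
      apply div_le_div_of_nonneg_right _ (by positivity)
      apply mul_le_mul_of_nonneg_left _ (by positivity)
      apply mul_le_mul_of_nonneg_left hcomp (by norm_num)
    -- volume of K
    have hKvol : vol {x | nK x ≤ 1} ≤ (144 / (M : ℝ)) ^ M := by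
      have h1 : volume {x | nK x ≤ 1} ≤ volume {x | g x ≤ 1} := by
        apply measure_mono
        intro x hx
        have h2 : nK x ≤ 1 := hx
        have h3 := mul_nonneg hc0 (norm_nonneg x)
        show g x ≤ 1
        simp only [nK] at h2
        linarith
      have h2 : volume (Metric.ball (0 : EuclideanSpace ℝ (Fin n)) 1) ≤
          ENNReal.ofReal ((9 / M : ℝ) ^ M) := by
        have := ballvol M (by omega)
        rw [hn]; exact this
      have h3 : volume {x | nK x ≤ 1} ≤ ENNReal.ofReal ((144 / (M : ℝ)) ^ M) := by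
        calc volume {x | nK x ≤ 1} ≤ volume {x | g x ≤ 1} := h1
          _ ≤ ENNReal.ofReal ((2 * ((n ^ 2 : ℕ) : ℝ)) ^ (4 * R ^ 2) * 2 ^ n) *
              volume (Metric.ball (0 : EuclideanSpace ℝ (Fin n)) 1) := gvol
          _ ≤ ENNReal.ofReal (2 ^ n * 2 ^ n) * ENNReal.ofReal ((9 / M : ℝ) ^ M) := by
              apply mul_le_mul' _ h2
              apply ENNReal.ofReal_le_ofReal
              exact mul_le_mul_of_nonneg_right hMpow (by positivity)
          _ = ENNReal.ofReal ((144 / (M : ℝ)) ^ M) := by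
              rw [← ENNReal.ofReal_mul (by positivity)]
              congr 1
              rw [hn, pow_mul, ← mul_pow, ← mul_pow]
              congr 1; ring
      unfold vol
      exact ENNReal.toReal_le_of_le_ofReal (by positivity) h3
    have hDpos : 0 < vol {x | nK x ≤ 1} - vol {x | nL x ≤ 1} :=
      lt_of_lt_of_le (by positivity) hD2
    have hL0 : 0 ≤ vol {x | nL x ≤ 1} := ENNReal.toReal_nonneg
    have hK0 : 0 < vol {x | nK x ≤ 1} := by linarith
    have hp0 : (1 : ℝ) / 2 ≤ ((n : ℝ) - 1) / n := by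
      rw [div_le_div_iff₀ (by norm_num) hn0]
      have : (2 : ℝ) ≤ n := by
        have : 2 ≤ n := by omega
        exact_mod_cast this
      linarith
    have hp1 : ((n : ℝ) - 1) / n ≤ 1 := by
      rw [div_le_one hn0]; linarith
    have hconc := pow_concave (vol {x | nK x ≤ 1}) (vol {x | nL x ≤ 1}) (((n : ℝ) - 1) / n)
      hK0 hL0 (by linarith) hp1
    have hroot : √(M : ℝ) / 12 ≤ vol {x | nK x ≤ 1} ^ (((n : ℝ) - 1) / n - 1) := by
      have e1 : ((n : ℝ) - 1) / n - 1 = -(1 / n) := by field_simp; ring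
      rw [e1, Real.rpow_neg hK0.le]
      have h1 : vol {x | nK x ≤ 1} ^ ((1 : ℝ) / n) ≤ 12 / √(M : ℝ) := by
        calc vol {x | nK x ≤ 1} ^ ((1 : ℝ) / n) ≤ ((144 / (M : ℝ)) ^ M) ^ ((1 : ℝ) / n) :=
              Real.rpow_le_rpow hK0.le hKvol (by positivity)
          _ = (144 / (M : ℝ)) ^ ((1 : ℝ) / 2) := by
              rw [← Real.rpow_natCast, ← Real.rpow_mul (by positivity)]
              congr 1
              rw [hnM]; field_simp
          _ = 12 / √(M : ℝ) := by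
              rw [← Real.sqrt_eq_rpow, Real.sqrt_div (by norm_num)]
              congr 1
              rw [show (144 : ℝ) = 12 ^ 2 by norm_num]
              exact Real.sqrt_sq (by norm_num)
      have h2 : 0 < vol {x | nK x ≤ 1} ^ ((1 : ℝ) / n) := Real.rpow_pos_of_pos hK0 _
      rw [le_inv_comm₀ (by positivity) h2, inv_div]
      exact h1
    refine lt_of_lt_of_le ?_ hconc
    have hlow : (1 / 2) * (√(M : ℝ) / 12) * (Q / (128 * √(M : ℝ))) ≤
        ((n : ℝ) - 1) / n * vol {x | nK x ≤ 1} ^ (((n : ℝ) - 1) / n - 1) *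
          (vol {x | nK x ≤ 1} - vol {x | nL x ≤ 1}) := by
      apply mul_le_mul (mul_le_mul hp0 hroot (by positivity) (by linarith)) hD2 (by positivity)
      have : 0 ≤ vol {x | nK x ≤ 1} ^ (((n : ℝ) - 1) / n - 1) := Real.rpow_nonneg hK0.le _
      have h2 : 0 ≤ ((n : ℝ) - 1) / n := by linarith
      positivity
    refine lt_of_lt_of_le ?_ hlow
    have e5 : (1 / 2) * (√(M : ℝ) / 12) * (Q / (128 * √(M : ℝ))) = Q / 3072 := by
      field_simp; ring
    have e6 : C * (t * (R : ℝ) ^ (m + 2) * Acst m b * ((1 / (4000 * C)) * N) /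
        (Nat.factorial (m + 1) : ℝ)) = Q / 4000 := by
      rw [hQ]; field_simp
    rw [e5, e6]
    linarith

theorem bdd_sec (n k : ℕ) (K L : Set (EuclideanSpace ℝ (Fin n))) (hk : k < n)
    (hK : IsSymmBody K) : BddAbove (secDiffs (n - k) K L) := by
  obtain ⟨r, hr⟩ := hK.1.isBounded.subset_closedBall 0
  refine ⟨(ENNReal.ofReal (|r| + 1) ^ (n - k) *
    ENNReal.ofReal (√Real.pi ^ (n - k) / Real.Gamma (((n - k : ℕ) : ℝ) / 2 + 1))).toReal, ?_⟩
  rintro _ ⟨F, hF, rfl⟩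
  have h1 : volume (slice K F) ≤
      ENNReal.ofReal (|r| + 1) ^ (n - k) *
        ENNReal.ofReal (√Real.pi ^ (n - k) / Real.Gamma (((n - k : ℕ) : ℝ) / 2 + 1)) := by
    have : Nontrivial F := Module.nontrivial_of_finrank_pos (R := ℝ) (by omega)
    calc volume (slice K F)
        ≤ volume (Metric.ball (0 : F) (|r| + 1)) := by
          apply measure_mono
          intro x hx
          have h2 := hr hx
          rw [mem_closedBall_zero_iff] at h2
          rw [mem_ball_zero_iff]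
          have h3 := le_abs_self r
          calc ‖x‖ = ‖(x : EuclideanSpace ℝ (Fin n))‖ := rfl
            _ < |r| + 1 := by linarith
      _ = _ := by
          rw [InnerProductSpace.volume_ball, hF]
  have h2 : sec K F ≤ (ENNReal.ofReal (|r| + 1) ^ (n - k) *
    ENNReal.ofReal (√Real.pi ^ (n - k) / Real.Gamma (((n - k : ℕ) : ℝ) / 2 + 1))).toReal := by
    unfold sec vol
    exact ENNReal.toReal_mono (by finiteness) h1
  have h3 : 0 ≤ sec L F := ENNReal.toReal_nonneg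
  show sec K F - sec L F ≤ _
  linarith

theorem secDiffs_nonempty (n d : ℕ) (hd : d ≤ n) (K L : Set (EuclideanSpace ℝ (Fin n))) :
    (secDiffs d K L).Nonempty := by
  let v : Fin d → EuclideanSpace ℝ (Fin n) := fun i =>
    EuclideanSpace.basisFun (Fin n) ℝ (Fin.castLE hd i)
  have hv : LinearIndependent ℝ v :=
    (EuclideanSpace.basisFun (Fin n) ℝ).orthonormal.linearIndependent.comp _
      (Fin.castLE_injective hd)
  refine ⟨_, Submodule.span ℝ (Set.range v), ?_, rfl⟩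
  rw [finrank_span_eq_card hv, Fintype.card_fin]

theorem not_holds (C : ℝ) (hC : 0 < C) : ∃ n : ℕ, 2 ≤ n ∧ ∀ γ : ℝ, 0 < γ → γ ≤ C →
    ¬ Holds n 1 γ := by
  obtain ⟨n, hn, K, L, hK, hL, hLK, B, hB, hlt⟩ := key C hC
  refine ⟨n, hn, fun γ hγ hγC hH => ?_⟩
  have h1 := hH K L hK hL hLK
  have h2 : sSup (secDiffs (n - 1) K L) ≤ B :=
    csSup_le (secDiffs_nonempty n (n - 1) (by omega) K L) hB
  simp only [Nat.cast_one, pow_one] at h1
  have hn0 : (0 : ℝ) < n := by
    have : 0 < n := by omega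
    exact_mod_cast this
  have hn1 : (1 : ℝ) ≤ n := by
    have : 1 ≤ n := by omega
    exact_mod_cast this
  have h3 : 0 ≤ vol K ^ (((n : ℝ) - 1) / n) - vol L ^ (((n : ℝ) - 1) / n) := by
    have h4 : vol L ≤ vol K :=
      ENNReal.toReal_mono hK.1.measure_lt_top.ne (measure_mono hLK)
    have h6 : vol L ^ (((n : ℝ) - 1) / n) ≤ vol K ^ (((n : ℝ) - 1) / n) :=
      Real.rpow_le_rpow ENNReal.toReal_nonneg h4
        (div_nonneg (sub_nonneg.mpr hn1) hn0.le : 0 ≤ ((n : ℝ) - 1) / n)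
    linarith
  set S := sSup (secDiffs (n - 1) K L) with hS
  have hS0 : 0 ≤ S := by
    by_contra hneg
    have := mul_neg_of_pos_of_neg hγ (not_le.mp hneg)
    linarith
  have h5 : γ * S ≤ C * B := mul_le_mul hγC h2 hS0 hC.le
  linarith

theorem result :
    (¬ ∃ C : ℝ, ∀ n k : ℕ, 2 ≤ n → 1 ≤ k → k < n → gammaConst n k ≤ ENNReal.ofReal C) ∧
    (∀ C : ℝ, 0 < C → ∃ n : ℕ, 2 ≤ n ∧ ENNReal.ofReal C ≤ gammaConst n 1 ∧ ¬ Holds n 1 C) ∧
    (∀ C : ℝ, 0 < C → ∃ n : ℕ, 2 ≤ n ∧ StronglyFails n C) ∧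
    (∀ n k : ℕ, k < n → SecBounded n k) := by
  have hmain : ∀ C : ℝ, 0 < C → ∃ n : ℕ, 2 ≤ n ∧ ENNReal.ofReal C ≤ gammaConst n 1 ∧
      ¬ Holds n 1 C := by
    intro C hC
    obtain ⟨n, hn, h⟩ := not_holds C hC
    refine ⟨n, hn, ?_, h C hC le_rfl⟩
    unfold gammaConst
    refine le_iInf₂ fun γ hγ => ?_
    apply ENNReal.ofReal_le_ofReal
    by_contra hlt
    exact h γ hγ.1 (not_le.mp hlt).le hγ.2
  refine ⟨?_, hmain, key, ?_⟩
  · rintro ⟨C, hC⟩
    obtain ⟨n, hn, h1, -⟩ := hmain (max C 0 + 1) (by positivity)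
    have h2 := hC n 1 hn le_rfl (by omega)
    have h3 := h1.trans h2
    have h4 : (ENNReal.ofReal C) < ENNReal.ofReal (max C 0 + 1) := by
      rw [ENNReal.ofReal_lt_ofReal_iff (by positivity)]
      have := le_max_left C 0
      linarith
    exact absurd h3 (not_le.mpr h4)
  · intro n k hk K L hK hL
    exact ⟨secDiffs_nonempty n (n - k) (by omega) K L, bdd_sec n k K L hk hK⟩

end

end Pool.Agent.Results.MP_ad3614_gt.DifferenceUnbounded
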